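import Mathlib

/-!
Non-metrizable Frechet-Urysohn group topologies on countable groups: definitions and general lemmas.
-/

set_option autoImplicit false

namespace Pool.Agent.NFU

open Filter Topology Set Pointwise

/-- The group `G` has a Hausdorff group topology that is Frechet-Urysohn and not metrizable. -/
def NMF (G : Type) [Group G] : Prop :=
  ∃ τ : TopologicalSpace G, @IsTopologicalGroup G τ _ ∧ @T2Space G τ ∧
    @FrechetUrysohnSpace G τ ∧ ¬ @TopologicalSpace.MetrizableSpace G τ

section Strong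

variable {G : Type*} [Group G] [TopologicalSpace G] [IsTopologicalGroup G] [T2Space G]
  [FrechetUrysohnSpace G]

/-- A Hausdorff Frechet-Urysohn group is strongly Frechet-Urysohn (at `1`). -/
theorem strong (A : ℕ → Set G) (hA : Antitone A) (h : ∀ n, (1 : G) ∈ closure (A n)) :
    ∃ a : ℕ → G, (∀ n, a n ∈ A n) ∧ Tendsto a atTop (𝓝 1) := by
  by_cases h1 : ∀ n, (1 : G) ∈ A n
  · exact ⟨fun _ => 1, h1, tendsto_const_nhds⟩
  push Not at h1
  obtain ⟨n0, hn0⟩ := h1
  obtain ⟨b, hbA, hb⟩ := mem_closure_iff_seq_limit.1 (h n0)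
  have hb1 : ∀ k, (b k)⁻¹ ≠ 1 := by
    intro k hk
    rw [inv_eq_one] at hk
    exact hn0 (hk ▸ hbA k)
  choose O V hO hV hOm hVm hdis using fun k => t2_separation (hb1 k)
  have hcl : ∀ k, (1 : G) ∈ closure (A (max k n0) ∩ V k) := by
    intro k
    exact mem_closure_iff_nhds.2 fun t ht => by
      obtain ⟨x, hx⟩ := mem_closure_iff_nhds.1 (h (max k n0)) (t ∩ V k)
        (inter_mem ht ((hV k).mem_nhds (hVm k)))
      exact ⟨x, hx.1.1, hx.2, hx.1.2⟩
  let B : Set G := {x | ∃ k, ∃ a ∈ A (max k n0) ∩ V k, x = b k * a}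
  have hbB : ∀ k, b k ∈ closure B := by
    intro k
    have h2 : b k * 1 ∈ closure ((fun x => b k * x) '' (A (max k n0) ∩ V k)) :=
      image_closure_subset_closure_image (continuous_const_mul (b k)) ⟨1, hcl k, rfl⟩
    rw [mul_one] at h2
    refine closure_mono ?_ h2
    rintro _ ⟨a, ha, rfl⟩
    exact ⟨k, a, ha, rfl⟩
  have h1B : (1 : G) ∈ closure B := isClosed_closure.mem_of_tendsto hb (Eventually.of_forall hbB)
  obtain ⟨s, hsB, hs⟩ := mem_closure_iff_seq_limit.1 h1B
  choose k a ha hsa using hsB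
  have hk : ∀ m, ∀ᶠ i in atTop, k i ≠ m := by
    intro m
    have h2 : Tendsto (fun i => (b m)⁻¹ * s i) atTop (𝓝 ((b m)⁻¹ * 1)) := hs.const_mul _
    rw [mul_one] at h2
    filter_upwards [h2.eventually_mem ((hO m).mem_nhds (hOm m))] with i hi hki
    have h3 : (b m)⁻¹ * s i = a i := by rw [hsa i, hki]; group
    rw [h3] at hi
    have h4 : a i ∈ V m := hki ▸ (ha i).2
    exact Set.disjoint_left.1 (hdis m) hi h4
  have hkt : Tendsto k atTop atTop := by
    refine tendsto_atTop.2 fun K => ?_
    have h2 : ∀ᶠ i in atTop, ∀ m ∈ Finset.range K, k i ≠ m :=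
      (Finset.eventually_all _).2 fun m _ => hk m
    filter_upwards [h2] with i hi
    by_contra hcon
    push Not at hcon
    exact hi _ (Finset.mem_range.2 hcon) rfl
  have hat : Tendsto a atTop (𝓝 1) := by
    have h2 : Tendsto (fun i => (b (k i))⁻¹ * s i) atTop (𝓝 (1⁻¹ * 1)) :=
      ((hb.comp hkt).inv).mul hs
    rw [inv_one, mul_one] at h2
    refine h2.congr fun i => ?_
    rw [hsa i]; group
  have hex : ∀ n, ∃ i, n ≤ i ∧ n ≤ k i := by
    intro n
    obtain ⟨i, hi1, hi2⟩ := ((eventually_ge_atTop n).and (hkt.eventually_ge_atTop n)).exists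
    exact ⟨i, hi1, hi2⟩
  choose i hi1 hi2 using hex
  refine ⟨fun n => a (i n), fun n => hA ?_ (ha (i n)).1,
    hat.comp (tendsto_atTop_mono hi1 tendsto_id)⟩
  exact (hi2 n).trans (le_max_left _ _)

end Strong

section Topology

variable {G : Type*} [Group G] [TopologicalSpace G] [IsTopologicalGroup G]

theorem metrizable_iff [T2Space G] :
    TopologicalSpace.MetrizableSpace G ↔ (𝓝 (1 : G)).IsCountablyGenerated := by
  constructor
  · intro h
    infer_instance
  · intro hcg
    let _ := IsTopologicalGroup.rightUniformSpace G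
    have : (uniformity G).IsCountablyGenerated := by
      rw [uniformity_eq_comap_nhds_one' G]
      infer_instance
    infer_instance

/-- The Frechet-Urysohn property of a group may be checked at `1`. -/
theorem frechet_of_one
    (h : ∀ S : Set G, (1 : G) ∈ closure S → ∃ s : ℕ → G, (∀ n, s n ∈ S) ∧ Tendsto s atTop (𝓝 1)) :
    FrechetUrysohnSpace G := by
  refine ⟨fun S x hx => ?_⟩
  have h1 : (1 : G) ∈ closure ((fun y => x⁻¹ * y) '' S) := by
    have h2 : x⁻¹ * x ∈ closure ((fun y => x⁻¹ * y) '' S) :=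
      image_closure_subset_closure_image (continuous_const_mul x⁻¹) ⟨x, hx, rfl⟩
    rwa [inv_mul_cancel] at h2
  obtain ⟨s, hs, hst⟩ := h _ h1
  refine ⟨fun n => x * s n, fun n => ?_, ?_⟩
  · obtain ⟨y, hy, hys⟩ := hs n
    have : x * s n = y := by rw [← hys]; simp
    show x * s n ∈ S
    rw [this]; exact hy
  · have h2 : Tendsto (fun n => x * s n) atTop (𝓝 (x * 1)) := hst.const_mul x
    rwa [mul_one] at h2

end Topology

/-- Transport along an isomorphism. -/
theorem NMF.congr {G H : Type} [Group G] [Group H] (e : G ≃* H) (h : NMF G) : NMF H := by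
  obtain ⟨τ, h1, h2, h3, h4⟩ := h
  let σ : TopologicalSpace H := TopologicalSpace.induced e.symm τ
  have hi : IsInducing (e.symm : H → G) := ⟨rfl⟩
  let f : H ≃ₜ G := e.symm.toEquiv.toHomeomorphOfIsInducing hi
  have g1 : IsTopologicalGroup H := topologicalGroup_induced e.symm
  have g2 : T2Space H := f.symm.t2Space
  have g3 : FrechetUrysohnSpace H := hi.frechetUrysohnSpace
  refine ⟨σ, g1, g2, g3, fun h5 => h4 ?_⟩
  exact f.symm.isEmbedding.metrizableSpace

end Pool.Agent.NFU
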