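import Pool.Agent.NMF.Basic

/-!
Group topologies from group filter bases, the lifting lemma and the transfer lemma.
-/

set_option autoImplicit false

namespace Pool.Agent.NFU

open Filter Topology Set Pointwise

/-- A criterion: a group filter basis gives a topology as required. -/
theorem nmf_of_basis {H : Type} [Group H] (𝓑 : GroupFilterBasis H)
    (hT2 : ∀ x : H, x ≠ 1 → ∃ S ∈ 𝓑.sets, x ∉ S)
    (hF : ∀ S : Set H, (∀ B ∈ 𝓑.sets, (B ∩ S).Nonempty) →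
      ∃ s : ℕ → H, (∀ n, s n ∈ S) ∧ ∀ B ∈ 𝓑.sets, ∀ᶠ n in atTop, s n ∈ B)
    (hcg : ¬ ∃ O : ℕ → Set H, (∀ i, ∃ B ∈ 𝓑.sets, B ⊆ O i) ∧ ∀ B ∈ 𝓑.sets, ∃ i, O i ⊆ B) :
    NMF H := by
  let σ : TopologicalSpace H := 𝓑.topology
  have g1 : IsTopologicalGroup H := 𝓑.isTopologicalGroup
  have hb := 𝓑.nhds_one_hasBasis
  have hmem : ∀ B ∈ 𝓑.sets, B ∈ 𝓝 (1 : H) := fun B hB => hb.mem_iff.2 ⟨B, hB, Subset.rfl⟩
  have g2 : T2Space H := by
    refine IsTopologicalGroup.t2Space_of_one_sep fun x hx => ?_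
    obtain ⟨S, hS, hxS⟩ := hT2 x hx
    exact ⟨S, hmem S hS, hxS⟩
  have g3 : FrechetUrysohnSpace H := by
    apply frechet_of_one
    intro S hS
    obtain ⟨s, hs, hsB⟩ := hF S fun B hB => mem_closure_iff_nhds.1 hS B (hmem B hB)
    refine ⟨s, hs, fun U hU => ?_⟩
    obtain ⟨B, hB, hBU⟩ := hb.mem_iff.1 hU
    filter_upwards [hsB B hB] with n hn
    exact hBU hn
  refine ⟨σ, g1, g2, g3, fun h => hcg ?_⟩
  have hcg' := metrizable_iff.1 h
  obtain ⟨O, hO⟩ := (𝓝 (1 : H)).exists_antitone_basis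
  refine ⟨O, fun i => ?_, fun B hB => ?_⟩
  · obtain ⟨B, hB, hBO⟩ := hb.mem_iff.1 (hO.1.mem_of_mem (i := i) trivial)
    exact ⟨B, hB, hBO⟩
  · obtain ⟨i, -, hi⟩ := hO.1.mem_iff.1 (hmem B hB)
    exact ⟨i, hi⟩

/-- Enumeration of a countable nonempty type in which every element occurs infinitely often. -/
theorem exists_enum (G : Type) [Countable G] [Nonempty G] :
    ∃ c : ℕ → G, ∀ g N, ∃ n, N ≤ n ∧ c n = g := by
  obtain ⟨e, he⟩ : ∃ e : ℕ → G, Function.Surjective e := exists_surjective_nat G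
  refine ⟨fun n => e n.unpair.1, fun g N => ?_⟩
  obtain ⟨m, rfl⟩ := he g
  exact ⟨Nat.pair m N, Nat.right_le_pair m N, by simp⟩

section Transfer

variable {G H M : Type} [Group G] [Group H] [Group M]

/-- Transfer lemma. `M` is a group of words with homomorphisms `φ : M → H`, `π : M → G`, and
`B j` are small sets of words. -/
theorem transfer (φ : M →* H) (π : M →* G) (B : ℕ → Set M)
    (hB1 : ∀ j, (1 : M) ∈ B j) (hBm : ∀ j, ∀ x ∈ B (j + 1), ∀ y ∈ B (j + 1), x * y ∈ B j)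
    (hBi : ∀ j, ∀ x ∈ B j, x⁻¹ ∈ B j) (hBa : ∀ j, B (j + 1) ⊆ B j)
    (hB0 : ∀ x : M, (∀ j, x ∈ B j) → x = 1)
    (hφ : ∀ x ∈ B 0, φ x = 1 → x = 1)
    (hπ : ∀ g j, ∃ x ∈ B j, π x = g)
    (hconj : ∀ (h : H) (j : ℕ), ∃ (g : G) (j' : ℕ), ∀ x ∈ B j', ∃ y ∈ B j,
      φ y = h * φ x * h⁻¹ ∧ π y = g * π x * g⁻¹)
    (hG : NMF G) : NMF H := by
  obtain ⟨τ, t1, t2, t3, t4⟩ := hG
  have hanti : Antitone B := antitone_nat_of_succ_le hBa
  -- injectivity on `B 1`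
  have hinj : ∀ x ∈ B 1, ∀ y ∈ B 1, φ x = φ y → x = y := by
    intro x hx y hy hxy
    have h1 := hφ (x * y⁻¹) (hBm 0 x hx y⁻¹ (hBi 1 y hy)) (by rw [map_mul, map_inv, hxy, mul_inv_cancel])
    rwa [mul_inv_eq_one] at h1
  let 𝓑 : GroupFilterBasis H :=
    { sets := {S | ∃ U ∈ 𝓝 (1 : G), ∃ j, S = φ '' (B j ∩ π ⁻¹' U)}
      nonempty := ⟨_, univ, univ_mem, 0, rfl⟩
      inter_sets := by
        rintro _ _ ⟨U, hU, j, rfl⟩ ⟨U', hU', j', rfl⟩
        refine ⟨_, ⟨U ∩ U', inter_mem hU hU', max j j', rfl⟩, subset_inter ?_ ?_⟩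
        · exact image_mono (inter_subset_inter (hanti (le_max_left _ _))
            (preimage_mono inter_subset_left))
        · exact image_mono (inter_subset_inter (hanti (le_max_right _ _))
            (preimage_mono inter_subset_right))
      one' := by
        rintro _ ⟨U, hU, j, rfl⟩
        exact ⟨1, ⟨hB1 j, by simpa using mem_of_mem_nhds hU⟩, map_one φ⟩
      mul' := by
        rintro _ ⟨U, hU, j, rfl⟩
        obtain ⟨V, hV, hVU⟩ := exists_nhds_one_split hU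
        refine ⟨_, ⟨V, hV, j + 1, rfl⟩, ?_⟩
        rintro _ ⟨_, ⟨x, hx, rfl⟩, _, ⟨y, hy, rfl⟩, rfl⟩
        refine ⟨x * y, ⟨hBm j x hx.1 y hy.1, ?_⟩, map_mul φ x y⟩
        show π (x * y) ∈ U
        rw [map_mul]
        exact hVU _ hx.2 _ hy.2
      inv' := by
        rintro _ ⟨U, hU, j, rfl⟩
        refine ⟨_, ⟨U⁻¹, inv_mem_nhds_one G hU, j, rfl⟩, ?_⟩
        rintro _ ⟨x, hx, rfl⟩
        refine ⟨x⁻¹, ⟨hBi j x hx.1, ?_⟩, map_inv φ x⟩
        show π x⁻¹ ∈ U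
        rw [map_inv]
        exact hx.2
      conj' := by
        rintro h _ ⟨U, hU, j, rfl⟩
        obtain ⟨g, j', hj'⟩ := hconj h j
        have hc : Tendsto (fun y : G => g * y * g⁻¹) (𝓝 1) (𝓝 1) := by
          have h1 : Continuous fun y : G => g * y * g⁻¹ := by fun_prop
          simpa using h1.tendsto 1
        refine ⟨_, ⟨_, hc hU, j', rfl⟩, ?_⟩
        rintro _ ⟨x, hx, rfl⟩
        obtain ⟨y, hy, hyx, hyU⟩ := hj' x hx.1
        refine ⟨y, ⟨hy, ?_⟩, hyx⟩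
        show π y ∈ U
        rw [hyU]
        exact hx.2 }
  refine nmf_of_basis 𝓑 ?_ ?_ ?_
  · -- Hausdorff
    intro x hx
    by_cases h1 : ∃ a ∈ B 1, φ a = x
    · obtain ⟨a, ha, rfl⟩ := h1
      have ha1 : a ≠ 1 := fun h => hx (by rw [h, map_one])
      obtain ⟨j, hj⟩ : ∃ j, a ∉ B j := by
        by_contra hcon
        push Not at hcon
        exact ha1 (hB0 a hcon)
      refine ⟨_, ⟨univ, univ_mem, max 1 j, rfl⟩, ?_⟩
      rintro ⟨b, ⟨hb, -⟩, hab⟩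
      have h2 := hinj b (hanti (le_max_left _ _) hb) a ha hab
      exact hj (h2 ▸ hanti (le_max_right _ _) hb)
    · refine ⟨_, ⟨univ, univ_mem, 1, rfl⟩, ?_⟩
      rintro ⟨b, ⟨hb, -⟩, hbx⟩
      exact h1 ⟨b, hb, hbx⟩
  · -- Frechet
    intro S hS
    let A : ℕ → Set G := fun j => π '' (B j ∩ φ ⁻¹' S)
    have hA : Antitone A := fun i j hij => image_mono (inter_subset_inter (hanti hij) Subset.rfl)
    have hcl : ∀ j, (1 : G) ∈ closure (A j) := by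
      intro j
      rw [mem_closure_iff_nhds]
      intro U hU
      obtain ⟨_, ⟨x, hx, rfl⟩, hxS⟩ := hS _ ⟨U, hU, j, rfl⟩
      exact ⟨π x, hx.2, x, ⟨hx.1, hxS⟩, rfl⟩
    obtain ⟨a, haA, ha⟩ := strong A hA hcl
    choose x hx hxa using haA
    refine ⟨fun n => φ (x n), fun n => (hx n).2, ?_⟩
    rintro _ ⟨U, hU, j, rfl⟩
    filter_upwards [ha.eventually_mem hU, eventually_ge_atTop j] with n hn hjn
    exact ⟨x n, ⟨hanti hjn (hx n).1, by show π (x n) ∈ U; rw [hxa n]; exact hn⟩, rfl⟩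
  · -- not first countable
    rintro ⟨O, hO1, hO2⟩
    apply t4
    rw [metrizable_iff]
    let N : ℕ → Set G := fun i => π '' (B 1 ∩ φ ⁻¹' (O i))
    have hN1 : ∀ i, N i ∈ 𝓝 (1 : G) := by
      intro i
      obtain ⟨_, ⟨U, hU, j, rfl⟩, hUO⟩ := hO1 i
      refine mem_of_superset hU fun g hg => ?_
      obtain ⟨x, hx, rfl⟩ := hπ g (max 1 j)
      refine ⟨x, ⟨hanti (le_max_left _ _) hx, hUO ⟨x, ⟨hanti (le_max_right _ _) hx, hg⟩, rfl⟩⟩, rfl⟩
    have hN2 : ∀ U ∈ 𝓝 (1 : G), ∃ i, N i ⊆ U := by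
      intro U hU
      obtain ⟨i, hi⟩ := hO2 _ ⟨U, hU, 1, rfl⟩
      refine ⟨i, ?_⟩
      rintro _ ⟨x, ⟨hx, hxO⟩, rfl⟩
      obtain ⟨y, ⟨hy, hyU⟩, hyx⟩ := hi hxO
      rw [hinj x hx y hy hyx.symm]
      exact hyU
    have hbas : (𝓝 (1 : G)).HasBasis (fun _ : ℕ => True) N := by
      refine ⟨fun U => ⟨fun hU => ?_, ?_⟩⟩
      · obtain ⟨i, hi⟩ := hN2 U hU
        exact ⟨i, trivial, hi⟩
      · rintro ⟨i, -, hi⟩
        exact mem_of_superset (hN1 i) hi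
    exact hbas.isCountablyGenerated

end Transfer

end Pool.Agent.NFU
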