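import Pool.Agent.FUF.Sparse
import Pool.Agent.NMF.Basis

/-!
Transfer to groups with many central elements.
-/

set_option autoImplicit false

namespace Pool.Agent.NFU

open Set Filter Topology Pointwise Pool.Agent.FUF

/-- The choice of an almost independent sequence in a commutative group. -/
theorem exists_indep {Z : Type*} [CommGroup Z] (m : ℕ)
    (hZ : ∀ (E : Finset Z) (n : ℕ), ∃ h : Z, h ^ m = 1 ∧ ∀ a : ℤ, |a| ≤ n → h ^ a ∈ E → (m : ℤ) ∣ a) :
    ∃ h : ℕ → Z, (∀ n, h n ^ m = 1) ∧ ∀ (N : ℕ) (a : ℕ → ℤ), (∀ n : ℕ, |a n| ≤ (n : ℤ)) →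
      ∏ n ∈ Finset.range N, h n ^ a n = 1 → ∀ n < N, (m : ℤ) ∣ a n := by
  classical
  obtain ⟨f, hP, hR⟩ := dep_choice (S := Finset Z × Z)
    (fun n s => (s.2 ^ m = 1 ∧ ∀ a : ℤ, |a| ≤ n → s.2 ^ a ∈ s.1 → (m : ℤ) ∣ a) ∧ (n = 0 → 1 ∈ s.1))
    (fun n s s' => s'.1 = (s.1 ×ˢ Finset.Icc (-(n : ℤ)) n).image fun p => p.1 * s.2 ^ p.2) (by
      obtain ⟨h, hh⟩ := hZ {1} 0
      exact ⟨({1}, h), hh, fun _ => by simp⟩) (by
      rintro n ⟨E, h⟩ -
      obtain ⟨h', hh'⟩ := hZ ((E ×ˢ Finset.Icc (-(n : ℤ)) n).image fun p => p.1 * h ^ p.2) (n + 1)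
      exact ⟨(_, h'), ⟨hh', fun h => by omega⟩, rfl⟩)
  have hE : ∀ (N : ℕ) (a : ℕ → ℤ), (∀ n : ℕ, |a n| ≤ (n : ℤ)) →
      ∏ n ∈ Finset.range N, (f n).2 ^ a n ∈ (f N).1 := by
    intro N a ha
    induction N with
    | zero => simpa using (hP 0).2 rfl
    | succ N ih =>
      rw [hR N, Finset.prod_range_succ, Finset.mem_image]
      refine ⟨(_, a N), Finset.mem_product.2 ⟨ih, Finset.mem_Icc.2 (abs_le.1 (ha N))⟩, rfl⟩
  refine ⟨fun n => (f n).2, fun n => (hP n).1.1, ?_⟩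
  intro N a ha
  induction N with
  | zero => intro _ n hn; omega
  | succ N ih =>
    intro h1 n hn
    rw [Finset.prod_range_succ] at h1
    have h2 : (f N).2 ^ a N ∈ (f N).1 := by
      rw [eq_inv_of_mul_eq_one_right h1, ← Finset.prod_inv_distrib]
      have h3 := hE N (fun n => - a n) fun n => by rw [abs_neg]; exact ha n
      simpa using h3
    have h3 : (m : ℤ) ∣ a N := (hP N).1.2 (a N) (ha N) h2
    rcases Nat.lt_succ_iff_lt_or_eq.1 hn with h4 | h4
    · refine ih ?_ n h4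
      obtain ⟨k, hk⟩ := h3
      have h5 : (f N).2 ^ a N = 1 := by rw [hk, zpow_mul, zpow_natCast, (hP N).1.1, one_zpow]
      rwa [h5, mul_one] at h1
    · rw [h4]; exact h3

theorem fprod_eq {Z : Type*} [CommGroup Z] (h : ℕ → Z) (a : ℕ →₀ ℤ) :
    ∃ N, (∀ n, N ≤ n → a n = 0) ∧ a.prod (fun n k => h n ^ k) = ∏ n ∈ Finset.range N, h n ^ a n := by
  refine ⟨a.support.sup id + 1, fun n hn => ?_, ?_⟩
  · by_contra h1
    have h2 : n ≤ a.support.sup id := Finset.le_sup (f := id) (Finsupp.mem_support_iff.2 h1)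
    omega
  · refine Finsupp.prod_of_support_subset a ?_ _ (fun i _ => zpow_zero _)
    intro n hn
    rw [Finset.mem_range]
    have h2 : n ≤ a.support.sup id := Finset.le_sup (f := id) hn
    omega

theorem fprod_one {Z : Type*} [CommGroup Z] {m : ℕ} (h : ℕ → Z) (hm : ∀ n, h n ^ m = 1) (a : ℕ →₀ ℤ)
    (ha : ∀ n, (m : ℤ) ∣ a n) : a.prod (fun n k => h n ^ k) = 1 := by
  refine Finset.prod_eq_one fun n _ => ?_
  obtain ⟨k, hk⟩ := ha n
  show h n ^ a n = 1
  rw [hk, zpow_mul, zpow_natCast, hm, one_zpow]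

theorem fprod_add {Z : Type*} [CommGroup Z] (h : ℕ → Z) (a b : ℕ →₀ ℤ) :
    (a + b).prod (fun n k => h n ^ k) = a.prod (fun n k => h n ^ k) * b.prod (fun n k => h n ^ k) :=
  Finsupp.prod_add_index' (fun _ => zpow_zero _) (fun _ _ _ => zpow_add _ _ _)

theorem fprod_neg {Z : Type*} [CommGroup Z] (h : ℕ → Z) (a : ℕ →₀ ℤ) :
    (-a).prod (fun n k => h n ^ k) = (a.prod fun n k => h n ^ k)⁻¹ := by
  rw [eq_inv_iff_mul_eq_one, ← fprod_add, neg_add_cancel]
  exact Finsupp.prod_zero_index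

/-- Transfer to groups with many central elements. -/
theorem transfer_central {G H Z : Type} [CommGroup G] [Countable G] [Group H] [CommGroup Z] (m : ℕ)
    (hm : ∀ x : G, x ^ m = 1) (hG : NMF G) (ι : Z →* H) (hι : Function.Injective ι)
    (hcen : ∀ z h, h * ι z = ι z * h)
    (hH : ∀ (E : Finset Z) (n : ℕ), ∃ h : Z, h ^ m = 1 ∧
      ∀ a : ℤ, |a| ≤ n → h ^ a ∈ E → (m : ℤ) ∣ a) : NMF H := by
  obtain ⟨c, hc⟩ := exists_enum G
  obtain ⟨h, hh1, hh2⟩ := exists_indep m hH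
  have key : ∀ a : ℕ →₀ ℤ, (∀ n : ℕ, |a n| ≤ (n : ℤ)) → a.prod (fun n k => h n ^ k) = 1 →
      ∀ n, (m : ℤ) ∣ a n := by
    intro a ha h1 n
    obtain ⟨N, hN, hN'⟩ := fprod_eq h a
    rw [hN'] at h1
    by_cases h3 : n < N
    · exact hh2 N a ha h1 n h3
    · rw [hN n (not_lt.1 h3)]
      exact dvd_zero _
  have hpow : ∀ j : ℕ, (1 : ℤ) ≤ 2 ^ j := fun j => one_le_pow₀ (by norm_num)
  have habs : ∀ (j : ℕ) (a : ℕ →₀ ℤ), (∀ n : ℕ, 2 ^ j * |a n| ≤ (n : ℤ)) → ∀ n : ℕ, |a n| ≤ (n : ℤ) := by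
    intro j a ha n
    have h1 := ha n
    nlinarith [hpow j, abs_nonneg (a n)]
  refine transfer (M := Z × G) (ι.comp (MonoidHom.fst Z G)) (MonoidHom.snd _ G)
    (fun j => {p | ∃ a : ℕ →₀ ℤ, (∀ n : ℕ, 2 ^ j * |a n| ≤ (n : ℤ)) ∧
      p = (a.prod (fun n k => h n ^ k), a.prod (fun n k => c n ^ k))}) ?_ ?_ ?_ ?_ ?_ ?_ ?_ ?_ hG
  · intro j
    exact ⟨0, by simp, by simp; rfl⟩
  · rintro j _ ⟨a, ha, rfl⟩ _ ⟨b, hb, rfl⟩
    refine ⟨a + b, fun n => ?_, by rw [fprod_add, fprod_add]; rfl⟩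
    have h1 := ha n
    have h2 := hb n
    rw [pow_succ] at h1 h2
    have h3 : |(a + b) n| ≤ |a n| + |b n| := abs_add_le _ _
    have h4 := hpow j
    nlinarith
  · rintro j _ ⟨a, ha, rfl⟩
    refine ⟨-a, fun n => ?_, by rw [fprod_neg, fprod_neg]; rfl⟩
    rw [Finsupp.neg_apply, abs_neg]
    exact ha n
  · rintro j _ ⟨a, ha, rfl⟩
    refine ⟨a, fun n => ?_, rfl⟩
    have h1 := ha n
    rw [pow_succ] at h1
    nlinarith [hpow j, abs_nonneg (a n)]
  · intro x hx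
    obtain ⟨a, ha, hxa⟩ := hx 1
    have hdvd : ∀ n, (m : ℤ) ∣ a n := by
      intro n
      obtain ⟨b, hb, hxb⟩ := hx (n + 1)
      have h1 : b n = 0 := by
        by_contra h2
        have h3 := hb n
        have h4 : 1 ≤ |b n| := Int.one_le_abs h2
        have h5 : (n : ℤ) + 1 ≤ 2 ^ (n + 1) := by
          have h6 : n + 1 < 2 ^ (n + 1) := Nat.lt_two_pow_self
          exact_mod_cast h6.le
        nlinarith
      have h2 : (a + -b).prod (fun n k => h n ^ k) = 1 := by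
        rw [fprod_add, fprod_neg, mul_inv_eq_one]
        have h3 := hxa.symm.trans hxb
        exact congrArg Prod.fst h3
      have h3 := key (a + -b) (fun n => by
        have h4 := ha n
        have h5 := hb n
        have h6 : |(a + -b) n| ≤ |a n| + |(-b) n| := abs_add_le _ _
        rw [Finsupp.neg_apply, abs_neg] at h6
        have h7 : (2 : ℤ) ≤ 2 ^ (n + 1) := by
          rw [pow_succ]; nlinarith [hpow n]
        have h8 := abs_nonneg (b n)
        have h9 : 2 * |b n| ≤ (n : ℤ) := by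
          rename_i n'
          have h10 : (2 : ℤ) ≤ 2 ^ (n' + 1) := by
            rw [pow_succ]; nlinarith [hpow n']
          nlinarith
        rw [pow_one] at h4
        omega) h2 n
      have h4 : (a + -b) n = a n := by
        rw [Finsupp.add_apply, Finsupp.neg_apply, h1, neg_zero, add_zero]
      rwa [h4] at h3
    rw [hxa, fprod_one h hh1 a hdvd, fprod_one c (fun n => hm _) a hdvd]
    rfl
  · rintro _ ⟨a, ha, rfl⟩ h1
    have h2 : a.prod (fun n k => h n ^ k) = 1 := hι (h1.trans (map_one ι).symm)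
    have h3 := key a (habs 0 a ha) h2
    rw [h2, fprod_one c (fun n => hm _) a h3]
    rfl
  · intro g j
    obtain ⟨n, hn, hcn⟩ := hc g (2 ^ j)
    refine ⟨(_, _), ⟨Finsupp.single n 1, fun k => ?_, rfl⟩, ?_⟩
    · by_cases hk : k = n
      · subst hk
        rw [Finsupp.single_eq_same, abs_one, mul_one]
        exact_mod_cast hn
      · rw [Finsupp.single_eq_of_ne hk, abs_zero, mul_zero]
        exact Int.natCast_nonneg _
    · show (Finsupp.single n 1).prod (fun n k => c n ^ k) = g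
      rw [Finsupp.prod_single_index (zpow_zero _), zpow_one, hcn]
  · intro x j
    refine ⟨1, j, fun y hy => ⟨y, hy, ?_, by simp⟩⟩
    show ι y.1 = x * ι y.1 * x⁻¹
    rw [hcen, mul_inv_cancel_right]

/-- Central elements of large order. -/
theorem infinite_exponent {Z : Type*} [CommGroup Z] (hZ : ¬ ∃ N : ℕ, 0 < N ∧ ∀ z : Z, z ^ N = 1)
    (E : Finset Z) (n : ℕ) : ∃ h : Z, h ^ 0 = 1 ∧ ∀ a : ℤ, |a| ≤ n → h ^ a ∈ E → ((0 : ℕ) : ℤ) ∣ a := by
  classical
  by_contra hcon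
  push Not at hcon
  apply hZ
  have h1 : ∀ h : Z, ∃ a : ℤ, a ≠ 0 ∧ |a| ≤ n ∧ h ^ a ∈ E := by
    intro h
    obtain ⟨a, ha, haE, ha0⟩ := hcon h (pow_zero h)
    refine ⟨a, fun h0 => ha0 ?_, ha, haE⟩
    rw [h0]
    exact dvd_zero _
  have h2 : ∀ h : Z, h ^ n.factorial ∈ (E ×ˢ Finset.Icc (-(n.factorial : ℤ)) n.factorial).image
      (fun p => p.1 ^ p.2) := by
    intro h
    obtain ⟨a, ha0, ha, haE⟩ := h1 h
    have h3 : a ∣ (n.factorial : ℤ) := by
      rw [← Int.natAbs_dvd, Int.natCast_dvd_natCast]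
      refine Nat.dvd_factorial (Int.natAbs_pos.2 ha0) ?_
      have h4 : (a.natAbs : ℤ) ≤ n := by rw [Int.natCast_natAbs]; exact ha
      exact_mod_cast h4
    obtain ⟨k, hk⟩ := h3
    rw [Finset.mem_image]
    refine ⟨(h ^ a, k), Finset.mem_product.2 ⟨haE, Finset.mem_Icc.2 (abs_le.1 ?_)⟩, ?_⟩
    · have h4 : |a| * |k| = n.factorial := by rw [← abs_mul, ← hk, Nat.abs_cast]
      have h5 : 1 ≤ |a| := Int.one_le_abs ha0
      nlinarith [abs_nonneg k]
    · show (h ^ a) ^ k = h ^ n.factorial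
      rw [← zpow_mul, ← hk, zpow_natCast]
  have hfin : (Set.range fun z : Z => z ^ n.factorial).Finite := by
    refine (Finset.finite_toSet ((E ×ˢ Finset.Icc (-(n.factorial : ℤ)) n.factorial).image
      (fun p => p.1 ^ p.2))).subset ?_
    rintro _ ⟨z, rfl⟩
    exact h2 z
  have hfin' : Finite (powMonoidHom n.factorial : Z →* Z).range := by
    apply Set.Finite.to_subtype
    rw [MonoidHom.coe_range]
    exact hfin
  refine ⟨n.factorial * Nat.card (powMonoidHom n.factorial : Z →* Z).range,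
    Nat.mul_pos n.factorial_pos Nat.card_pos, fun z => ?_⟩
  have h4 : (⟨z ^ n.factorial, z, rfl⟩ : (powMonoidHom n.factorial : Z →* Z).range) ^
      Nat.card (powMonoidHom n.factorial : Z →* Z).range = 1 := pow_card_eq_one'
  have h5 := congrArg Subtype.val h4
  rw [pow_mul]
  exact h5

/-- Many central elements of order `p`. -/
theorem infinite_torsion {Z : Type*} [CommGroup Z] {p : ℕ} (hp : p.Prime) (hZ : {z : Z | z ^ p = 1}.Infinite)
    (E : Finset Z) (n : ℕ) : ∃ h : Z, h ^ p = 1 ∧ ∀ a : ℤ, |a| ≤ n → h ^ a ∈ E → (p : ℤ) ∣ a := by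
  classical
  obtain ⟨h, hh, hhE⟩ := hZ.exists_notMem_finset ((E ×ˢ Finset.range p).image fun q => q.1 ^ q.2)
  refine ⟨h, hh, fun a _ haE => ?_⟩
  by_contra hdvd
  apply hhE
  have hcop : IsCoprime (p : ℤ) a := by
    rw [Prime.coprime_iff_not_dvd (Nat.prime_iff_prime_int.1 hp)]
    exact hdvd
  obtain ⟨u, v, huv⟩ := hcop
  have hh' : h ^ p = 1 := hh
  have h1 : (h ^ a) ^ (v.emod p).toNat = h := by
    have h0 : 0 ≤ v.emod p := Int.emod_nonneg _ (by exact_mod_cast hp.ne_zero)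
    have h2 : (h ^ a) ^ (v.emod p).toNat = (h ^ a) ^ (v.emod p) := by
      rw [← zpow_natCast, Int.toNat_of_nonneg h0]
    have h3 : (h ^ a) ^ (v.emod p) = (h ^ a) ^ v := by
      have h4 : v = v.emod p + p * (v / p) := by
        have := Int.emod_add_mul_ediv v p
        exact this.symm
      conv_rhs => rw [h4, zpow_add, zpow_mul]
      have h5 : (h ^ a) ^ (p : ℤ) = 1 := by
        rw [← zpow_mul, mul_comm, zpow_mul, zpow_natCast, hh', one_zpow]
      rw [h5, one_zpow, mul_one]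
    rw [h2, h3, ← zpow_mul]
    have h6 : a * v = 1 - u * p := by linear_combination huv
    rw [h6, zpow_sub, zpow_one, mul_comm u, zpow_mul, zpow_natCast, hh', one_zpow, inv_one, mul_one]
  rw [Finset.mem_image]
  refine ⟨(h ^ a, (v.emod p).toNat), Finset.mem_product.2 ⟨haE, ?_⟩, h1⟩
  rw [Finset.mem_range]
  have h0 : 0 ≤ v.emod p := Int.emod_nonneg _ (by exact_mod_cast hp.ne_zero)
  have h2 : v.emod p < p := Int.emod_lt_of_pos _ (by exact_mod_cast hp.pos)
  omega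

end Pool.Agent.NFU
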