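import Pool.Agent.FUF.Words
import Pool.Agent.NMF.Basis

/-!
Transfer from a commutative group to a group with generic elements in every neighbourhood.
-/

set_option autoImplicit false

namespace Pool.Agent.NFU

open Set Filter Topology Pointwise Pool.Agent.FUF

section Words

variable {H : Type*} [Group H]

/-- The product of the conjugates `c.1 * x ^ (± 1) * c.1⁻¹` for `c` in the list `C`. -/
def conjProd (x : H) (C : List (H × Bool)) : H :=
  (C.map fun c => c.1 * (if c.2 then x else x⁻¹) * c.1⁻¹).prod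

/-- The sum of the exponents of the list. -/
def expSum {A : Type*} (C : List (A × Bool)) : ℤ := (C.map fun c => if c.2 then 1 else -1).sum

/-- Every relation of length at most `k` between conjugates of `x` by elements of `F` has an exponent sum
divisible by `m`. -/
def Generic (m : ℕ) (F : Set H) (k : ℕ) (x : H) : Prop :=
  ∀ C : List (H × Bool), C.length ≤ k → (∀ c ∈ C, c.1 ∈ F) → conjProd x C = 1 → (m : ℤ) ∣ expSum C

/-- The exponent sum of the letters of index `n`. -/
def lsum (n : ℕ) (L : List (H × ℕ × Bool)) : ℤ :=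
  (L.map fun t => if t.2.1 = n then (if t.2.2 then 1 else -1) else 0).sum

theorem lsum_cons (n : ℕ) (t : H × ℕ × Bool) (L : List (H × ℕ × Bool)) :
    lsum n (t :: L) = (if t.2.1 = n then (if t.2.2 then 1 else -1) else 0) + lsum n L := by
  simp [lsum]

theorem lsum_filter (n : ℕ) (L : List (H × ℕ × Bool)) :
    lsum n (L.filter fun t => decide (t.2.1 < n + 1)) = lsum n L := by
  induction L with
  | nil => rfl
  | cons a L ih =>
    by_cases h : a.2.1 < n + 1
    · rw [List.filter_cons_of_pos (by simpa using h), lsum_cons, lsum_cons, ih]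
    · rw [List.filter_cons_of_neg (by simpa using h), lsum_cons, ih, if_neg (by omega), zero_add]

/-- Properties of a fast generic sequence. -/
structure Fast' (m : ℕ) (ℓ : H → ℕ) (U : ℕ → Set H) (g : ℕ → H) (V : ℕ → Set H) : Prop where
  one_mem : ∀ n, (1 : H) ∈ V n
  step : ∀ n, V (n + 1) * V (n + 1) ⊆ V n ∩ U n
  small : ∀ n, shortProds (conjSet (Cset ℓ (g '' Iio n) n) (g n)) (2 ^ n) ⊆ V n
  generic : ∀ n, Generic m (Cset ℓ (g '' Iio n) n) (2 ^ n) (g n)
  sep : ∀ n, ∀ q ∈ Qset ℓ (g '' Iio n) n, q⁻¹ ∈ V n * V n → q = 1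

/-- One step of the normal form, with exponents. -/
theorem move_right' (ℓ : H → ℕ) (g : ℕ → H) (n : ℕ) (L : List (H × ℕ × Bool))
    (hL : ∀ t ∈ L, t.2.1 ≤ n) (hc : wcost ℓ L < 1) :
    ∃ C : List (H × Bool), C.length ≤ L.length ∧ (∀ c ∈ C, c.1 ∈ Cset ℓ (g '' Iio n) n) ∧
      expSum C = lsum n L ∧
      wval g L = wval g (L.filter fun t => decide (t.2.1 < n)) * conjProd (g n) C := by
  induction L with
  | nil => exact ⟨[], by simp, by simp, by simp [expSum, lsum], by simp [conjProd]⟩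
  | cons a L ih =>
    have hcL : wcost ℓ L < 1 := by
      rw [wcost_cons] at hc; linarith [cost_pos ℓ a]
    obtain ⟨C, h1, h2, h5, h3⟩ := ih (fun t ht => hL t (by simp [ht])) hcL
    by_cases ha : a.2.1 < n
    · refine ⟨C, by simp only [List.length_cons]; omega, h2, ?_, ?_⟩
      · rw [h5, lsum_cons, if_neg (by omega), zero_add]
      · rw [List.filter_cons_of_pos (by simpa using ha), wval_cons, wval_cons, h3, mul_assoc]
    · have han : a.2.1 = n := le_antisymm (hL a (by simp)) (not_lt.1 ha)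
      obtain ⟨q, hqd⟩ : ∃ q, q = wval g (L.filter fun t => decide (t.2.1 < n)) := ⟨_, rfl⟩
      have hq : q ∈ Qset ℓ (g '' Iio n) n := by
        rw [hqd]
        apply wval_mem_Qset
        · intro t ht
          simpa using (List.mem_filter.1 ht).2
        · exact lt_of_le_of_lt (wcost_filter_le ℓ _ L) hcL
      refine ⟨(q⁻¹ * a.1, a.2.2) :: C, ?_, ?_, ?_, ?_⟩
      · simp only [List.length_cons]; omega
      · intro c hc'
        rcases List.mem_cons.1 hc' with rfl | h
        · have h4 : ℓ a.1 < a.2.1 := by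
            apply cost_lt_one
            rw [wcost_cons] at hc
            linarith [wcost_nonneg ℓ L]
          refine ⟨(q, a.1), ⟨hq, ?_⟩, rfl⟩
          show ℓ a.1 ≤ n
          omega
        · exact h2 c h
      · rw [lsum_cons, if_pos han, ← h5]
        simp [expSum]
      · rw [List.filter_cons_of_neg (by simpa using ha), wval_cons, h3, ← hqd]
        have h6 : conjProd (g n) ((q⁻¹ * a.1, a.2.2) :: C) =
            (q⁻¹ * val g a * q) * conjProd (g n) C := by
          unfold conjProd val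
          rw [List.map_cons, List.prod_cons, han]
          congr 1
          simp only
          group
        rw [h6]
        group

/-- The normal form. -/
theorem normal_form' {m : ℕ} {ℓ : H → ℕ} {U : ℕ → Set H} {g : ℕ → H} {V : ℕ → Set H}
    (hF : Fast' m ℓ U g V) (L : List (H × ℕ × Bool)) (hc : wcost ℓ L < 1) (n : ℕ) :
    ∃ k ∈ V n * V n, wval g L = wval g (L.filter fun t => decide (t.2.1 < n)) * k := by
  obtain ⟨M, hM⟩ : ∃ M, ∀ t ∈ L, t.2.1 < M := by
    refine ⟨(L.map fun t => t.2.1).sum + 1, fun t ht => Nat.lt_succ_of_le ?_⟩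
    exact List.single_le_sum (by simp) _ (List.mem_map.2 ⟨t, ht, rfl⟩)
  have key : ∀ d n, M ≤ n + d → ∃ k ∈ V n * V n,
      wval g L = wval g (L.filter fun t => decide (t.2.1 < n)) * k := by
    intro d
    induction d with
    | zero =>
      intro n hn
      refine ⟨1, ⟨1, hF.one_mem n, 1, hF.one_mem n, by simp⟩, ?_⟩
      rw [mul_one, List.filter_eq_self.2]
      intro t ht
      have := hM t ht
      simp only [decide_eq_true_eq]
      omega
    | succ d ih =>
      intro n hn
      obtain ⟨k, hk, hkL⟩ := ih (n + 1) (by omega)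
      obtain ⟨C, h1, h2, h3⟩ := move_right ℓ g n (L.filter fun t => decide (t.2.1 < n + 1))
        (fun t ht => by
          have := (List.mem_filter.1 ht).2
          simp only [decide_eq_true_eq] at this
          omega) (lt_of_le_of_lt (wcost_filter_le ℓ _ L) hc)
      have h4 : C.prod ∈ V n := by
        apply hF.small n
        refine ⟨C, h1.trans (length_le' ℓ n _ ?_ (lt_of_le_of_lt (wcost_filter_le ℓ _ L) hc)),
          h2, rfl⟩
        intro t ht
        have := (List.mem_filter.1 ht).2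
        simp only [decide_eq_true_eq] at this
        omega
      have h5 : k ∈ V n := (hF.step n hk).1
      refine ⟨C.prod * k, ⟨C.prod, h4, k, h5, rfl⟩, ?_⟩
      rw [hkL, h3, List.filter_filter, mul_assoc]
      congr 3
      funext t
      by_cases h : t.2.1 < n
      · have : t.2.1 < n + 1 := by omega
        simp [h, this]
      · simp [h]
  exact key M n (by omega)

/-- A cheap word with value `1` has exponent sums divisible by `m`. -/
theorem dvd_lsum {m : ℕ} {ℓ : H → ℕ} {U : ℕ → Set H} {g : ℕ → H} {V : ℕ → Set H}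
    (hF : Fast' m ℓ U g V) (L : List (H × ℕ × Bool)) (hc : wcost ℓ L < 1) (h1 : wval g L = 1)
    (n : ℕ) : (m : ℤ) ∣ lsum n L := by
  have hw : ∀ n, wval g (L.filter fun t => decide (t.2.1 < n)) = 1 := by
    intro n
    obtain ⟨k, hk, hkL⟩ := normal_form' hF L hc n
    apply hF.sep n
    · apply wval_mem_Qset
      · intro t ht
        simpa using (List.mem_filter.1 ht).2
      · exact lt_of_le_of_lt (wcost_filter_le ℓ _ L) hc
    · rw [h1] at hkL
      rwa [inv_eq_of_mul_eq_one_right hkL.symm]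
  have hc' : wcost ℓ (L.filter fun t => decide (t.2.1 < n + 1)) < 1 :=
    lt_of_le_of_lt (wcost_filter_le ℓ _ L) hc
  have hle : ∀ t ∈ L.filter fun t => decide (t.2.1 < n + 1), t.2.1 ≤ n := by
    intro t ht
    have := (List.mem_filter.1 ht).2
    simp only [decide_eq_true_eq] at this
    omega
  obtain ⟨C, c1, c2, c3, c4⟩ := move_right' ℓ g n (L.filter fun t => decide (t.2.1 < n + 1)) hle hc'
  have hff : ((L.filter fun t => decide (t.2.1 < n + 1)).filter fun t => decide (t.2.1 < n)) =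
      L.filter fun t => decide (t.2.1 < n) := by
    rw [List.filter_filter]
    congr 1
    funext t
    by_cases h : t.2.1 < n
    · have : t.2.1 < n + 1 := by omega
      simp [h, this]
    · simp [h]
  rw [hw (n + 1), hff, hw n, one_mul] at c4
  have h2 := hF.generic n C (c1.trans (length_le' ℓ n _ hle hc')) c2 c4.symm
  rwa [c3, lsum_filter] at h2

/-- `W univ n` is contained in `V n * V n`. -/
theorem W_subset' {m : ℕ} {ℓ : H → ℕ} {U : ℕ → Set H} {g : ℕ → H} {V : ℕ → Set H}
    (hF : Fast' m ℓ U g V) (n : ℕ) (L : List (H × ℕ × Bool)) (h2 : wcost ℓ L < (1 / 2) ^ n) :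
    wval g L ∈ V n * V n := by
  have hn1 : (1 / 2 : ℝ) ^ n ≤ 1 := pow_le_one₀ (by norm_num) (by norm_num)
  obtain ⟨k, hk, hkL⟩ := normal_form' hF L (by linarith) n
  have : (L.filter fun t => decide (t.2.1 < n)) = [] := by
    rw [List.filter_eq_nil_iff]
    intro t ht
    simp only [decide_eq_true_eq, not_lt]
    by_contra hcon
    push Not at hcon
    have h3 := cost_le_wcost ℓ ht
    have h4 := half_pow_le_cost ℓ t
    have h5 : (1 / 2 : ℝ) ^ n ≤ (1 / 2) ^ t.2.1 :=
      pow_le_pow_of_le_one (by norm_num) (by norm_num) hcon.le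
    linarith
  rw [this, wval_nil, one_mul] at hkL
  rwa [hkL]

end Words

section Choice

variable {H : Type*} [Group H] [TopologicalSpace H] [IsTopologicalGroup H] [T2Space H]

theorem exists_small' {m : ℕ} (hgen : ∀ U ∈ 𝓝 (1 : H), ∀ F : Set H, F.Finite → ∀ k, ∃ x ∈ U, Generic m F k x)
    {C V : Set H} (hC : C.Finite) (hV : V ∈ 𝓝 (1 : H)) (N : ℕ) :
    ∃ y : H, Generic m C N y ∧ shortProds (conjSet C y) N ⊆ V := by
  obtain ⟨U, hU, hUV⟩ := exists_nhds_shortProds N V hV
  have h1 : {y | ∀ c ∈ C, c * y * c⁻¹ ∈ U ∧ c * y⁻¹ * c⁻¹ ∈ U} ∈ 𝓝 (1 : H) := by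
    refine (eventually_all_finite hC).2 fun c _ => ?_
    have e1 : Tendsto (fun y : H => c * y * c⁻¹) (𝓝 1) (𝓝 1) := by
      have : Continuous (fun y : H => c * y * c⁻¹) := by fun_prop
      simpa using this.tendsto 1
    have e2 : Tendsto (fun y : H => c * y⁻¹ * c⁻¹) (𝓝 1) (𝓝 1) := by
      have : Continuous (fun y : H => c * y⁻¹ * c⁻¹) := by fun_prop
      simpa using this.tendsto 1
    exact (e1.eventually hU).and (e2.eventually hU)
  obtain ⟨y, hy1, hy2⟩ := hgen _ h1 C hC N
  refine ⟨y, hy2, (shortProds_mono ?_ N).trans hUV⟩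
  rintro x ⟨c, hc, rfl | rfl⟩
  · exact (hy1 c hc).1
  · exact (hy1 c hc).2

theorem exists_sep {Q V : Set H} (hQ : Q.Finite) (hV : V ∈ 𝓝 (1 : H)) :
    ∃ V' ∈ 𝓝 (1 : H), V' * V' ⊆ V ∧ ∀ q ∈ Q, q⁻¹ ∈ V' * V' → q = 1 := by
  have hbad : ((fun q => q⁻¹) '' (Q \ {1}))ᶜ ∈ 𝓝 (1 : H) := by
    apply IsOpen.mem_nhds
    · exact ((hQ.subset sdiff_subset).image _).isClosed.isOpen_compl
    · rintro ⟨q, hq, hq1⟩
      exact hq.2 (inv_eq_one.1 hq1)
  obtain ⟨V', hV', hVV⟩ := exists_nhds_one_split (inter_mem hV hbad)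
  have hVV' : V' * V' ⊆ V ∩ ((fun q => q⁻¹) '' (Q \ {1}))ᶜ := by
    rintro _ ⟨a, ha, b, hb, rfl⟩
    exact hVV a ha b hb
  refine ⟨V', hV', hVV'.trans inter_subset_left, fun q hq hq' => ?_⟩
  by_contra h
  exact (hVV' hq').2 ⟨q, ⟨hq, h⟩, rfl⟩

theorem exists_fast' {m : ℕ} (hgen : ∀ U ∈ 𝓝 (1 : H), ∀ F : Set H, F.Finite → ∀ k, ∃ x ∈ U, Generic m F k x)
    {ℓ : H → ℕ} (hℓ : ∀ N, {h : H | ℓ h ≤ N}.Finite)
    (U : ℕ → Set H) (hU : ∀ n, U n ∈ 𝓝 (1 : H)) :
    ∃ g V, Fast' m ℓ U g V := by
  classical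
  have key := dep_choice (S := Finset H × Set H × H)
    (fun n s => s.2.1 ∈ 𝓝 (1 : H) ∧
      shortProds (conjSet (Cset ℓ (s.1 : Set H) n) s.2.2) (2 ^ n) ⊆ s.2.1 ∧
      Generic m (Cset ℓ (s.1 : Set H) n) (2 ^ n) s.2.2 ∧
      (∀ q ∈ Qset ℓ (s.1 : Set H) n, q⁻¹ ∈ s.2.1 * s.2.1 → q = 1) ∧ (n = 0 → s.1 = ∅))
    (fun n s s' => s'.1 = insert s.2.2 s.1 ∧ s'.2.1 * s'.2.1 ⊆ s.2.1 ∩ U n) ?_ ?_
  · obtain ⟨f, hP, hR⟩ := key
    have hG : ∀ n, ((f n).1 : Set H) = (fun n => (f n).2.2) '' Iio n := by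
      intro n
      induction n with
      | zero => simp [(hP 0).2.2.2.2 rfl]
      | succ n ih =>
        rw [(hR n).1, Finset.coe_insert, ih]
        ext x
        simp only [mem_insert_iff, mem_image, mem_Iio]
        constructor
        · rintro (rfl | ⟨k, hk, rfl⟩)
          · exact ⟨n, by omega, rfl⟩
          · exact ⟨k, by omega, rfl⟩
        · rintro ⟨k, hk, rfl⟩
          rcases Nat.lt_succ_iff_lt_or_eq.1 hk with h | h
          · exact Or.inr ⟨k, h, rfl⟩
          · subst h; exact Or.inl rfl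
    refine ⟨fun n => (f n).2.2, fun n => (f n).2.1, ?_, ?_, ?_, ?_, ?_⟩
    · intro n; exact mem_of_mem_nhds (hP n).1
    · intro n; exact (hR n).2
    · intro n; rw [← hG n]; exact (hP n).2.1
    · intro n; rw [← hG n]; exact (hP n).2.2.1
    · intro n; rw [← hG n]; exact (hP n).2.2.2.1
  · obtain ⟨V, hV, -, hsep⟩ := exists_sep
      (Qset_finite hℓ (G := ((∅ : Finset H) : Set H)) (Finset.finite_toSet _) 0)
      (univ_mem (f := 𝓝 (1 : H)))
    obtain ⟨y, hy1, hy2⟩ := exists_small' hgen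
      (Cset_finite hℓ (G := ((∅ : Finset H) : Set H)) (Finset.finite_toSet _) 0) hV (2 ^ 0)
    exact ⟨(∅, V, y), hV, hy2, hy1, hsep, fun _ => rfl⟩
  · rintro n ⟨G, V, y⟩ ⟨hV, -, -, -, -⟩
    obtain ⟨V', hV', hVV, hsep⟩ := exists_sep
      (Qset_finite hℓ (G := ((insert y G : Finset H) : Set H)) (Finset.finite_toSet _) (n + 1))
      (inter_mem hV (hU n))
    obtain ⟨y', hy1, hy2⟩ := exists_small' hgen
      (Cset_finite hℓ (G := ((insert y G : Finset H) : Set H)) (Finset.finite_toSet _) (n + 1))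
      hV' (2 ^ (n + 1))
    exact ⟨(insert y G, V', y'), ⟨hV', hy2, hy1, hsep, fun h => by omega⟩, rfl, hVV⟩

end Choice

section Target

variable {G : Type*} [CommGroup G]

/-- The value of a word in `G`. -/
def pval {H : Type*} (c : ℕ → G) (L : List (H × ℕ × Bool)) : G :=
  (L.map fun t => if t.2.2 then c t.2.1 else (c t.2.1)⁻¹).prod

theorem pval_eq {H : Type*} [Group H] (c : ℕ → G) (L : List (H × ℕ × Bool)) (N : ℕ) (hN : ∀ t ∈ L, t.2.1 < N) :
    pval c L = ∏ n ∈ Finset.range N, c n ^ lsum n L := by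
  induction L with
  | nil => simp [pval, lsum]
  | cons a L ih =>
    have h1 : pval c (a :: L) = (if a.2.2 then c a.2.1 else (c a.2.1)⁻¹) * pval c L := by simp [pval]
    rw [h1, ih fun t ht => hN t (by simp [ht])]
    have h2 : ∀ n ∈ Finset.range N, c n ^ lsum n (a :: L) =
        (if a.2.1 = n then (if a.2.2 then c n else (c n)⁻¹) else 1) * c n ^ lsum n L := by
      intro n _
      rw [lsum_cons, zpow_add]
      congr 1
      by_cases h3 : a.2.1 = n
      · by_cases h4 : a.2.2
        · simp [h3, h4]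
        · simp [h3, h4]
      · simp [h3]
    have h5 : a.2.1 ∈ Finset.range N := Finset.mem_range.2 (hN a (by simp))
    rw [Finset.prod_congr rfl h2, Finset.prod_mul_distrib, Finset.prod_ite_eq, if_pos h5]

theorem pval_eq_one {H : Type*} [Group H] {m : ℕ} (hm : ∀ x : G, x ^ m = 1) (c : ℕ → G)
    (L : List (H × ℕ × Bool)) (hL : ∀ n, (m : ℤ) ∣ lsum n L) : pval c L = 1 := by
  obtain ⟨M, hM⟩ : ∃ M, ∀ t ∈ L, t.2.1 < M := by
    refine ⟨(L.map fun t => t.2.1).sum + 1, fun t ht => Nat.lt_succ_of_le ?_⟩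
    exact List.single_le_sum (by simp) _ (List.mem_map.2 ⟨t, ht, rfl⟩)
  rw [pval_eq c L M hM]
  refine Finset.prod_eq_one fun n _ => ?_
  obtain ⟨s, hs⟩ := hL n
  rw [hs, zpow_mul, zpow_natCast, hm, one_zpow]

theorem pval_append {H : Type*} (c : ℕ → G) (L L' : List (H × ℕ × Bool)) :
    pval c (L ++ L') = pval c L * pval c L' := by simp [pval]

end Target

/-- Transfer to a group with generic elements in every neighbourhood of `1`. -/
theorem transfer_generic {G H : Type} [CommGroup G] [Countable G] [Group H] [Countable H] (m : ℕ)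
    (hm : ∀ x : G, x ^ m = 1) (hG : NMF G) (τ : TopologicalSpace H) (hτ : @IsTopologicalGroup H τ _)
    (hT2 : @T2Space H τ)
    (hgen : ∀ U ∈ 𝓝 (1 : H), ∀ F : Set H, F.Finite → ∀ k, ∃ x ∈ U, Generic m F k x) : NMF H := by
  classical
  obtain ⟨c, hc⟩ := exists_enum G
  obtain ⟨ℓ, hℓ, hℓf⟩ := exists_weight H
  obtain ⟨e, he⟩ : ∃ e : ℕ → H, Function.Surjective e := exists_surjective_nat H
  obtain ⟨U, hU, hUsep⟩ : ∃ U : ℕ → Set H, (∀ n, U n ∈ 𝓝 (1 : H)) ∧
      (∀ n, e n ≠ 1 → e n ∉ U n) := by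
    refine ⟨fun n => (if e n = 1 then univ else {e n}ᶜ), fun n => ?_, fun n hn => ?_⟩
    · simp only
      split_ifs with h
      · exact univ_mem
      · exact IsOpen.mem_nhds isOpen_compl_singleton (fun h' => h h'.symm)
    · simp [hn]
  obtain ⟨g, V, hF⟩ := exists_fast' hgen hℓf U hU
  have key : ∀ L : List (H × ℕ × Bool), wcost ℓ L < 1 → wval g L = 1 → pval c L = 1 :=
    fun L h1 h2 => pval_eq_one hm c L (dvd_lsum hF L h1 h2)
  have h0 : ∀ j, ∀ x ∈ {p : H × G | ∃ L, wcost ℓ L < (1 / 2) ^ j ∧ p = (wval g L, pval c L)},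
      x.1 = 1 → x = 1 := by
    rintro j _ ⟨L, hL, rfl⟩ h1
    have hj : (1 / 2 : ℝ) ^ j ≤ 1 := pow_le_one₀ (by norm_num) (by norm_num)
    exact Prod.ext h1 (key L (by linarith) h1)
  refine transfer (M := H × G) (MonoidHom.fst H G) (MonoidHom.snd H G)
    (fun j => {p | ∃ L, wcost ℓ L < (1 / 2) ^ j ∧ p = (wval g L, pval c L)}) ?_ ?_ ?_ ?_ ?_ ?_ ?_ ?_ hG
  · intro j
    exact ⟨[], by simp, by simp [pval]; rfl⟩
  · rintro j _ ⟨L, h2, rfl⟩ _ ⟨L', h2', rfl⟩
    refine ⟨L ++ L', ?_, by rw [wval_append, pval_append]; rfl⟩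
    rw [wcost_append]
    rw [pow_succ] at h2 h2'
    linarith
  · rintro j _ ⟨L, h2, rfl⟩
    refine ⟨(L.map fun t => (t.1, t.2.1, !t.2.2)).reverse, ?_, ?_⟩
    · unfold wcost at h2 ⊢
      rw [List.map_reverse, List.sum_reverse, List.map_map]
      exact h2
    · refine Prod.ext ?_ ?_
      · show (wval g L)⁻¹ = wval g _
        unfold wval
        rw [List.prod_inv_reverse, List.map_reverse, List.map_map, List.map_map]
        congr 2
        apply List.map_congr_left
        intro t _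
        simp only [Function.comp, val]
        by_cases hb : t.2.2
        · simp [hb, mul_assoc]
        · simp [hb, mul_assoc]
      · show (pval c L)⁻¹ = pval c _
        unfold pval
        rw [List.prod_inv_reverse, List.map_reverse, List.map_map, List.map_map]
        congr 2
        apply List.map_congr_left
        intro t _
        simp only [Function.comp]
        by_cases hb : t.2.2
        · simp [hb]
        · simp [hb]
  · rintro j _ ⟨L, h2, rfl⟩
    exact ⟨L, lt_of_lt_of_le h2 (pow_le_pow_of_le_one (by norm_num) (by norm_num) (Nat.le_succ j)), rfl⟩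
  · intro x hx
    apply h0 0 x (hx 0)
    by_contra h1
    obtain ⟨n, hn⟩ := he x.1
    obtain ⟨L, hL, hxL⟩ := hx (n + 1)
    have h2 := W_subset' hF (n + 1) L hL
    have h3 := (hF.step n h2).2
    have h4 : wval g L = e n := by rw [hn, hxL]
    rw [h4] at h3
    exact hUsep n (by rw [hn]; exact h1) h3
  · exact fun x hx h1 => h0 0 x hx h1
  · intro y j
    obtain ⟨n, hn, hcn⟩ := hc y (j + ℓ 1 + 1)
    refine ⟨(wval g [(1, n, true)], pval c [((1 : H), n, true)]), ⟨_, ?_, rfl⟩, ?_⟩
    · rw [wcost_cons, wcost_nil, add_zero]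
      unfold cost
      simp only
      have h4 : (2 : ℝ) ^ ℓ (1 : H) * (1 / 2) ^ (j + ℓ (1 : H)) = (1 / 2) ^ j := by
        rw [pow_add, mul_comm, mul_assoc, ← mul_pow]; norm_num
      rw [← h4]
      refine mul_lt_mul_of_pos_left ?_ (by positivity)
      exact pow_lt_pow_right_of_lt_one₀ (by norm_num) (by norm_num) (by omega)
    · show pval c [((1 : H), n, true)] = y
      simp [pval, hcn]
  · intro h j
    refine ⟨1, j + ℓ h, ?_⟩
    rintro _ ⟨L, h2, rfl⟩
    refine ⟨(wval g (L.map fun t => (h * t.1, t.2.1, t.2.2)), pval c (L.map fun t => (h * t.1, t.2.1, t.2.2))),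
      ⟨_, ?_, rfl⟩, ?_, ?_⟩
    · have h3 : wcost ℓ (L.map fun t => (h * t.1, t.2.1, t.2.2)) ≤ 2 ^ ℓ h * wcost ℓ L := by
        clear h2
        induction L with
        | nil => simp
        | cons a L ih =>
          rw [List.map_cons, wcost_cons, wcost_cons, mul_add]
          refine add_le_add ?_ ih
          unfold cost
          simp only
          rw [← mul_assoc, ← pow_add]
          gcongr
          · norm_num
          · exact hℓ _ _
      refine lt_of_le_of_lt h3 ?_
      have h4 : (2 : ℝ) ^ ℓ h * (1 / 2) ^ (j + ℓ h) = (1 / 2) ^ j := by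
        rw [pow_add, mul_comm, mul_assoc, ← mul_pow]; norm_num
      rw [← h4]
      exact mul_lt_mul_of_pos_left h2 (by positivity)
    · show wval g _ = h * wval g L * h⁻¹
      clear h2
      induction L with
      | nil => simp
      | cons a L ih =>
        rw [List.map_cons, wval_cons, wval_cons, ih]
        unfold val
        simp only
        group
    · show pval c _ = 1 * pval c L * 1⁻¹
      rw [one_mul, inv_one, mul_one]
      unfold pval
      rw [List.map_map]
      rfl

end Pool.Agent.NFU
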