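import Pool.Agent.NMF.Basis

/-!
The free group of countable rank.
-/

set_option autoImplicit false

namespace Pool.Agent.NFU

open Filter Topology Set Pointwise

/-- The retraction of the free group to the subgroup generated by the first `k` generators. -/
def retr (k : ℕ) : FreeGroup ℕ →* FreeGroup ℕ :=
  FreeGroup.lift fun n => if n < k then FreeGroup.of n else 1

theorem retr_retr (k : ℕ) (x : FreeGroup ℕ) : retr k (retr (k + 1) x) = retr k x := by
  have h : (retr k).comp (retr (k + 1)) = retr k := by
    apply FreeGroup.ext_hom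
    intro n
    simp only [MonoidHom.comp_apply, retr, FreeGroup.lift_apply_of]
    by_cases h1 : n < k
    · have h2 : n < k + 1 := by omega
      simp [h1, h2]
    · by_cases h2 : n < k + 1
      · simp [h1, h2]
      · simp [h1, h2]
  exact DFunLike.congr_fun h x

theorem retr_eventually (x : FreeGroup ℕ) : ∃ K, ∀ k, K ≤ k → retr k x = x := by
  induction x using FreeGroup.induction_on with
  | C1 => exact ⟨0, fun k _ => map_one _⟩
  | of n =>
    refine ⟨n + 1, fun k hk => ?_⟩
    have h : n < k := by omega
    simp [retr, h]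
  | inv_of n h =>
    obtain ⟨K, hK⟩ := h
    exact ⟨K, fun k hk => by rw [map_inv, hK k hk]⟩
  | mul x y hx hy =>
    obtain ⟨K, hK⟩ := hx
    obtain ⟨K', hK'⟩ := hy
    refine ⟨max K K', fun k hk => ?_⟩
    rw [map_mul, hK k (le_trans (le_max_left _ _) hk), hK' k (le_trans (le_max_right _ _) hk)]

/-- If some countable group is as required then the free group of countable rank is. -/
theorem nmf_free {G : Type} [Group G] [Countable G] (hG : NMF G) : NMF (FreeGroup ℕ) := by
  obtain ⟨c, hc⟩ := exists_enum G
  refine transfer (M := FreeGroup ℕ) (MonoidHom.id _) (FreeGroup.lift c)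
    (fun k => ((retr k).ker : Set (FreeGroup ℕ))) ?_ ?_ ?_ ?_ ?_ ?_ ?_ ?_ hG
  · exact fun j => Subgroup.one_mem _
  · intro j x hx y hy
    have hx' : retr (j + 1) x = 1 := hx
    have hy' : retr (j + 1) y = 1 := hy
    show retr j (x * y) = 1
    rw [← retr_retr, map_mul, hx', hy', mul_one, map_one]
  · exact fun j x hx => Subgroup.inv_mem _ hx
  · intro j x hx
    have hx' : retr (j + 1) x = 1 := hx
    show retr j x = 1
    rw [← retr_retr, hx', map_one]
  · intro x hx
    obtain ⟨K, hK⟩ := retr_eventually x
    have h1 : retr K x = 1 := hx K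
    rw [← hK K le_rfl, h1]
  · exact fun x _ h => h
  · intro g j
    obtain ⟨n, hn, hcn⟩ := hc g j
    refine ⟨FreeGroup.of n, ?_, by simpa using hcn⟩
    show retr j (FreeGroup.of n) = 1
    have h : ¬ n < j := by omega
    simp [retr, h]
  · intro h j
    refine ⟨FreeGroup.lift c h, j, fun x hx => ⟨h * x * h⁻¹, ?_, rfl, by simp⟩⟩
    exact (MonoidHom.normal_ker (retr j)).conj_mem x hx h

end Pool.Agent.NFU
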