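import Pool.Agent.NMF.Fast

/-!
Generic elements from the abelianization; maximally almost periodic groups.
-/

set_option autoImplicit false

namespace Pool.Agent.NFU

open Set Filter Topology Pointwise

theorem expSum_cons {A : Type*} (c : A × Bool) (C : List (A × Bool)) :
    expSum (c :: C) = (if c.2 then 1 else -1) + expSum C := by
  simp [expSum]

theorem abs_expSum {A : Type*} (C : List (A × Bool)) : |expSum C| ≤ (C.length : ℤ) := by
  induction C with
  | nil => simp [expSum]
  | cons c C ih =>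
    rw [expSum_cons, List.length_cons]
    have h1 : |(if c.2 then (1 : ℤ) else -1)| = 1 := by
      by_cases h : c.2
      · simp [h]
      · simp [h]
    have h2 := abs_add_le (if c.2 then (1 : ℤ) else -1) (expSum C)
    push_cast
    omega

theorem map_conjProd {H A : Type*} [Group H] [CommGroup A] (f : H →* A) (x : H) (C : List (H × Bool)) :
    f (conjProd x C) = f x ^ expSum C := by
  induction C with
  | nil => simp [conjProd, expSum]
  | cons c C ih =>
    have h1 : conjProd x (c :: C) = (c.1 * (if c.2 then x else x⁻¹) * c.1⁻¹) * conjProd x C := by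
      simp [conjProd]
    rw [h1, map_mul, ih, expSum_cons, zpow_add]
    congr 1
    rw [map_mul, map_mul, map_inv, mul_inv_cancel_comm]
    by_cases h : c.2
    · simp [h]
    · simp [h]

theorem generic_of_ab {H : Type*} [Group H] {x : H} {k : ℕ} (F : Set H)
    (h : ∀ s : ℕ, 0 < s → s ≤ k → x ^ s ∉ commutator H) : Generic 0 F k x := by
  intro C hC _ h1
  have h2 := map_conjProd (Abelianization.of (G := H)) x C
  rw [h1, map_one] at h2
  have h3 : expSum C = 0 := by
    by_contra h4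
    have h5 : 0 < (expSum C).natAbs := Int.natAbs_pos.2 h4
    have h6 : (expSum C).natAbs ≤ k := by
      have h7 := abs_expSum C
      have h8 : ((expSum C).natAbs : ℤ) ≤ k := by
        rw [Int.natCast_natAbs]
        exact h7.trans (by exact_mod_cast hC)
      exact_mod_cast h8
    apply h _ h5 h6
    rw [← Abelianization.ker_of, MonoidHom.mem_ker, map_pow]
    rcases Int.natAbs_eq (expSum C) with h9 | h9
    · rw [h9, zpow_natCast] at h2
      exact h2.symm
    · rw [h9, zpow_neg, zpow_natCast, eq_comm, inv_eq_one] at h2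
      exact h2
  rw [h3]
  exact dvd_zero _

/-- In a compact group some small power of every element is close to `1`. -/
theorem exists_pow_mem {K : Type*} [Group K] [TopologicalSpace K] [IsTopologicalGroup K] [CompactSpace K]
    {U : Set K} (hU : U ∈ 𝓝 (1 : K)) : ∃ J : ℕ, ∀ a : K, ∃ i : ℕ, 0 < i ∧ i ≤ J ∧ a ^ i ∈ U := by
  classical
  have hc : Tendsto (fun p : K × K => p.1⁻¹ * p.2) (𝓝 1 ×ˢ 𝓝 1) (𝓝 1) := by
    have h4 : Continuous fun p : K × K => p.1⁻¹ * p.2 := by fun_prop
    have h5 := h4.tendsto (1, 1)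
    rw [nhds_prod_eq] at h5
    simpa using h5
  obtain ⟨V1, hV1, V2, hV2, hVV⟩ := Filter.mem_prod_iff.1 (hc hU)
  obtain ⟨t, -, ht⟩ := (isCompact_univ (X := K)).elim_nhds_subcover (fun x => (fun y => x⁻¹ * y) ⁻¹' (V1 ∩ V2))
    (fun x _ => by
      have h1 : Continuous fun y : K => x⁻¹ * y := by fun_prop
      refine h1.continuousAt.preimage_mem_nhds ?_
      rw [inv_mul_cancel]
      exact inter_mem hV1 hV2)
  refine ⟨t.card, fun a => ?_⟩
  have h1 : ∀ n : ℕ, ∃ x ∈ t, x⁻¹ * a ^ n ∈ V1 ∩ V2 := by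
    intro n
    have h2 := ht (mem_univ (a ^ n))
    simp only [mem_iUnion, exists_prop] at h2
    exact h2
  choose f hf hfV using h1
  have h2 : ∃ x ∈ Finset.range (t.card + 1), ∃ y ∈ Finset.range (t.card + 1), x ≠ y ∧ f x = f y := by
    apply Finset.exists_ne_map_eq_of_card_lt_of_maps_to (t := t)
    · simp
    · intro x _
      exact hf x
  obtain ⟨x, hx, y, hy, hxy, hfxy⟩ := h2
  wlog hlt : x < y generalizing x y
  · exact this y hy x hx hxy.symm hfxy.symm (by omega)
  refine ⟨y - x, by omega, ?_, ?_⟩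
  · rw [Finset.mem_range] at hy
    omega
  · have h3 := hVV (Set.mk_mem_prod (hfV x).1 (hfV y).2)
    have h4 : ((f x)⁻¹ * a ^ x)⁻¹ * ((f y)⁻¹ * a ^ y) = a ^ (y - x) := by
      rw [hfxy, mul_inv_rev, inv_inv, mul_assoc, mul_inv_cancel_left, inv_mul_eq_iff_eq_mul, ← pow_add]
      congr 1
      omega
    have h5 : ((f x)⁻¹ * a ^ x)⁻¹ * ((f y)⁻¹ * a ^ y) ∈ U := h3
    rwa [h4] at h5

/-- `H` has a Hausdorff group topology in which every neighbourhood of `1` contains generic elements. -/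
def HasGeneric (m : ℕ) (H : Type) [Group H] : Prop :=
  ∃ τ : TopologicalSpace H, @IsTopologicalGroup H τ _ ∧ @T2Space H τ ∧
    ∀ U ∈ @nhds H τ 1, ∀ F : Set H, F.Finite → ∀ k, ∃ x ∈ U, Generic m F k x

theorem hasGeneric_of_compact {H K : Type} [Group H] [Group K] [TopologicalSpace K] [IsTopologicalGroup K]
    [CompactSpace K] [T2Space K] (j : H →* K) (hj : Function.Injective j)
    (hab : ¬ ∃ N : ℕ, 0 < N ∧ ∀ x : H, x ^ N ∈ commutator H) : HasGeneric 0 H := by
  let τ : TopologicalSpace H := TopologicalSpace.induced j inferInstance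
  have h1 : IsTopologicalGroup H := topologicalGroup_induced j
  have h2 : T2Space H := T2Space.of_injective_continuous hj continuous_induced_dom
  refine ⟨τ, h1, h2, ?_⟩
  intro U hU F _ k
  rw [nhds_induced, map_one, mem_comap] at hU
  obtain ⟨W, hW, hWU⟩ := hU
  obtain ⟨J, hJ⟩ := exists_pow_mem hW
  by_contra hcon
  push Not at hcon
  apply hab
  refine ⟨(k * J).factorial, Nat.factorial_pos _, fun a => ?_⟩
  obtain ⟨i, hi0, hiJ, hi⟩ := hJ (j a)
  have h3 : a ^ i ∈ U := hWU (by
    show j (a ^ i) ∈ W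
    rw [map_pow]
    exact hi)
  have h4 := hcon (a ^ i) h3
  obtain ⟨s, hs0, hsk, hs⟩ : ∃ s : ℕ, 0 < s ∧ s ≤ k ∧ (a ^ i) ^ s ∈ commutator H := by
    by_contra h5
    push Not at h5
    exact h4 (generic_of_ab F h5)
  have h6 : i * s ∣ (k * J).factorial := by
    apply Nat.dvd_factorial (Nat.mul_pos hi0 hs0)
    rw [mul_comm]
    exact Nat.mul_le_mul hsk hiJ
  obtain ⟨r, hr⟩ := h6
  rw [hr, pow_mul, pow_mul]
  exact Subgroup.pow_mem _ hs r

/-- A precompact group is covered by finitely many translates of a neighbourhood of `1`. -/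
theorem exists_cover {H K : Type*} [Group H] [Group K] [TopologicalSpace K] [IsTopologicalGroup K]
    [CompactSpace K] (j : H →* K) {U : Set K} (hU : U ∈ 𝓝 (1 : K)) :
    ∃ t : Set H, t.Finite ∧ ∀ a : H, ∃ b ∈ t, j (b⁻¹ * a) ∈ U := by
  classical
  have hc : Tendsto (fun p : K × K => p.1⁻¹ * p.2) (𝓝 1 ×ˢ 𝓝 1) (𝓝 1) := by
    have h4 : Continuous fun p : K × K => p.1⁻¹ * p.2 := by fun_prop
    have h5 := h4.tendsto (1, 1)
    rw [nhds_prod_eq] at h5
    simpa using h5
  obtain ⟨V1, hV1, V2, hV2, hVV⟩ := Filter.mem_prod_iff.1 (hc hU)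
  obtain ⟨t, -, ht⟩ := (isCompact_univ (X := K)).elim_nhds_subcover (fun x => (fun y => x⁻¹ * y) ⁻¹' (V1 ∩ V2))
    (fun x _ => by
      have h1 : Continuous fun y : K => x⁻¹ * y := by fun_prop
      refine h1.continuousAt.preimage_mem_nhds ?_
      rw [inv_mul_cancel]
      exact inter_mem hV1 hV2)
  have h1 : ∀ x : K, ∃ b : H, (∃ a : H, x⁻¹ * j a ∈ V1 ∩ V2) → x⁻¹ * j b ∈ V1 ∩ V2 := by
    intro x
    by_cases h : ∃ a : H, x⁻¹ * j a ∈ V1 ∩ V2
    · obtain ⟨b, hb⟩ := h
      exact ⟨b, fun _ => hb⟩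
    · exact ⟨1, fun h' => absurd h' h⟩
  choose r hr using h1
  refine ⟨r '' t, t.finite_toSet.image r, fun a => ?_⟩
  have h2 := ht (mem_univ (j a))
  simp only [mem_iUnion, exists_prop] at h2
  obtain ⟨x, hx, hxa⟩ := h2
  refine ⟨r x, ⟨x, hx, rfl⟩, ?_⟩
  have h3 := hVV (Set.mk_mem_prod (hr x ⟨a, hxa⟩).1 hxa.2)
  have h4 : (x⁻¹ * j (r x))⁻¹ * (x⁻¹ * j a) = j ((r x)⁻¹ * a) := by
    rw [map_mul, map_inv]
    group
  have h5 : (x⁻¹ * j (r x))⁻¹ * (x⁻¹ * j a) ∈ U := h3
  rwa [h4] at h5

theorem hasGeneric_of_homs {H K : Type} [Group H] [Group K] [TopologicalSpace K] [IsTopologicalGroup K]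
    [CompactSpace K] [T2Space K] (j : H →* K) (hj : Function.Injective j) {p : ℕ} (hp : p.Prime)
    (hi : Infinite (H →* Multiplicative (ZMod p))) : HasGeneric p H := by
  let τ : TopologicalSpace H := TopologicalSpace.induced j inferInstance
  have h1 : IsTopologicalGroup H := topologicalGroup_induced j
  have h2 : T2Space H := T2Space.of_injective_continuous hj continuous_induced_dom
  refine ⟨τ, h1, h2, ?_⟩
  intro U hU F _ k
  rw [nhds_induced, map_one, mem_comap] at hU
  obtain ⟨W, hW, hWU⟩ := hU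
  obtain ⟨t, ht, htU⟩ := exists_cover j hW
  obtain ⟨x, hx, f, hf⟩ : ∃ x ∈ U, ∃ f : H →* Multiplicative (ZMod p), f x ≠ 1 := by
    by_contra hcon
    push Not at hcon
    have hfin : Finite t := ht
    have : NeZero p := ⟨hp.ne_zero⟩
    have h3 : Finite (Multiplicative (ZMod p)) := inferInstanceAs (Finite (ZMod p))
    have h4 : Function.Injective fun (f : H →* Multiplicative (ZMod p)) (b : t) => f b := by
      intro f f' hff
      ext1 a
      obtain ⟨b, hb, hba⟩ := htU a
      have h5 : b⁻¹ * a ∈ U := hWU hba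
      have h6 := hcon _ h5 f
      have h7 := hcon _ h5 f'
      rw [map_mul, map_inv, inv_mul_eq_one] at h6 h7
      rw [← h6, ← h7]
      exact congrFun hff ⟨b, hb⟩
    have h5 : Finite (H →* Multiplicative (ZMod p)) := Finite.of_injective _ h4
    exact not_finite (H →* Multiplicative (ZMod p))
  refine ⟨x, hx, fun C _ _ hC => ?_⟩
  have h3 := map_conjProd f x C
  rw [hC, map_one] at h3
  have h4 : orderOf (f x) = p := by
    have h5 : f x ^ p = 1 := by
      have h6 : p • Multiplicative.toAdd (f x) = 0 := by simp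
      exact h6
    exact orderOf_eq_prime h5 hf
      (hp := ⟨hp⟩)
  rw [← h4]
  exact orderOf_dvd_iff_zpow_eq_one.2 h3.symm

end Pool.Agent.NFU
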