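import Pool.Agent.NMF.Basic

/-!
First countability is a three-space property; solvable groups.
-/

set_option autoImplicit false

namespace Pool.Agent.NFU

open Set Filter Topology Pointwise

section

variable {G : Type*} [Group G] [TopologicalSpace G] [IsTopologicalGroup G]

/-- First countability is a three-space property of topological groups. -/
theorem three_space (N : Subgroup G) [N.Normal] (h1 : (𝓝 (1 : N)).IsCountablyGenerated)
    (h2 : (𝓝 (1 : G ⧸ N)).IsCountablyGenerated) : (𝓝 (1 : G)).IsCountablyGenerated := by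
  obtain ⟨A, hA⟩ := (𝓝 (1 : N)).exists_antitone_basis
  have hU : ∀ n, ∃ U ∈ 𝓝 (1 : G), ∀ x ∈ U, ∀ y ∈ U, ∀ z : N, (z : G) = x⁻¹ * y → z ∈ A n := by
    intro n
    have h3 : A n ∈ 𝓝 (1 : N) := hA.1.mem_of_mem trivial
    rw [nhds_induced, mem_comap] at h3
    obtain ⟨B, hB, hBA⟩ := h3
    have hc : Tendsto (fun p : G × G => p.1⁻¹ * p.2) (𝓝 1 ×ˢ 𝓝 1) (𝓝 1) := by
      have h4 : Continuous fun p : G × G => p.1⁻¹ * p.2 := by fun_prop
      have h5 := h4.tendsto (1, 1)
      rw [nhds_prod_eq] at h5
      simpa using h5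
    obtain ⟨U, hU, U', hU', hUU⟩ := Filter.mem_prod_iff.1 (hc hB)
    refine ⟨U ∩ U', inter_mem hU hU', fun x hx y hy z hz => hBA ?_⟩
    show (z : G) ∈ B
    rw [hz]
    exact hUU (Set.mk_mem_prod hx.1 hy.2)
  choose U hU hUA using hU
  have key : 𝓝 (1 : G) = (⨅ n, 𝓟 (U n)) ⊓ comap (QuotientGroup.mk : G → G ⧸ N) (𝓝 1) := by
    apply le_antisymm
    · refine le_inf (le_iInf fun n => le_principal_iff.2 (hU n)) ?_
      exact (QuotientGroup.continuous_mk.tendsto' 1 1 rfl).le_comap
    · intro O hO
      obtain ⟨P, hP, hPO⟩ := exists_nhds_one_split hO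
      have h3 : (Subtype.val : N → G) ⁻¹' P ∈ 𝓝 (1 : N) :=
        continuous_subtype_val.continuousAt.preimage_mem_nhds (by simpa using hP)
      obtain ⟨n, -, hn⟩ := hA.1.mem_iff.1 h3
      have hQ : U n ∩ P ∈ 𝓝 (1 : G) := inter_mem (hU n) hP
      have h4 : (QuotientGroup.mk : G → G ⧸ N) '' (U n ∩ P) ∈ 𝓝 (1 : G ⧸ N) :=
        QuotientGroup.isOpenMap_coe.image_mem_nhds hQ
      rw [mem_inf_iff_superset]
      refine ⟨U n, mem_iInf_of_mem n (mem_principal_self _), _, preimage_mem_comap h4, ?_⟩
      rintro x ⟨hxU, y, ⟨hyU, hyP⟩, hxy⟩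
      have h5 : y⁻¹ * x ∈ N := QuotientGroup.eq.1 hxy
      have h6 : (⟨y⁻¹ * x, h5⟩ : N) ∈ A n := hUA n y hyU x hxU ⟨y⁻¹ * x, h5⟩ rfl
      have h7 : y⁻¹ * x ∈ P := hn h6
      have h8 := hPO y hyP _ h7
      rwa [mul_inv_cancel_left] at h8
  rw [key]
  infer_instance

/-- Quotients of Frechet-Urysohn groups are Frechet-Urysohn. -/
theorem frechet_quotient [FrechetUrysohnSpace G] (N : Subgroup G) [N.Normal] : FrechetUrysohnSpace (G ⧸ N) := by
  refine ⟨fun S x hx => ?_⟩
  obtain ⟨y, rfl⟩ := QuotientGroup.mk_surjective x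
  have h1 : y ∈ closure ((QuotientGroup.mk : G → G ⧸ N) ⁻¹' S) :=
    QuotientGroup.isOpenMap_coe.preimage_closure_subset_closure_preimage hx
  obtain ⟨s, hs, hst⟩ := mem_closure_iff_seq_limit.1 h1
  exact ⟨fun n => (s n : G ⧸ N), hs, (QuotientGroup.continuous_mk.tendsto y).comp hst⟩

end

/-- The three-space property for the property `NMF`. -/
theorem nmf_three {G : Type} [Group G] [TopologicalSpace G] [IsTopologicalGroup G] [T2Space G]
    [FrechetUrysohnSpace G] (hG : ¬ (𝓝 (1 : G)).IsCountablyGenerated) (N : Subgroup G) [N.Normal]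
    (hN : IsClosed (N : Set G)) : ¬ (𝓝 (1 : N)).IsCountablyGenerated ∨ NMF (G ⧸ N) := by
  by_cases h : (𝓝 (1 : N)).IsCountablyGenerated
  · right
    have h1 : FrechetUrysohnSpace (G ⧸ N) := frechet_quotient N
    have h2 : T3Space (G ⧸ N) := QuotientGroup.instT3Space N
    refine ⟨inferInstance, inferInstance, inferInstance, h1, fun h3 => hG ?_⟩
    exact three_space N h (metrizable_iff.1 h3)
  · exact Or.inl h

/-- A topological group that is not first countable is `NMF` if it is Hausdorff and Frechet. -/
theorem nmf_of_not {G : Type} [Group G] [TopologicalSpace G] [IsTopologicalGroup G] [T2Space G]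
    [FrechetUrysohnSpace G] (hG : ¬ (𝓝 (1 : G)).IsCountablyGenerated) : NMF G :=
  ⟨inferInstance, inferInstance, inferInstance, inferInstance, fun h => hG (metrizable_iff.1 h)⟩

theorem NMF.exists_top {G : Type} [Group G] (h : NMF G) : ∃ τ : TopologicalSpace G,
    @IsTopologicalGroup G τ _ ∧ @T2Space G τ ∧ @FrechetUrysohnSpace G τ ∧
    ¬ (@nhds G τ 1).IsCountablyGenerated := by
  obtain ⟨τ, h1, h2, h3, h4⟩ := h
  exact ⟨τ, h1, h2, h3, fun h5 => h4 (metrizable_iff.2 h5)⟩

theorem frechet_subgroup {G : Type*} [Group G] [TopologicalSpace G] [FrechetUrysohnSpace G] (N : Subgroup G) :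
    FrechetUrysohnSpace N := IsInducing.subtypeVal.frechetUrysohnSpace

theorem commutator_closure_le {G : Type*} [Group G] [TopologicalSpace G] [IsTopologicalGroup G]
    (K : Subgroup G) : ⁅K.topologicalClosure, K.topologicalClosure⁆ ≤ (⁅K, K⁆ : Subgroup G).topologicalClosure := by
  rw [Subgroup.commutator_le]
  intro x hx y hy
  have hc : Continuous (Function.uncurry fun a b : G => a * b * a⁻¹ * b⁻¹) := by
    have h1 : Continuous fun p : G × G => p.1 * p.2 * p.1⁻¹ * p.2⁻¹ := by fun_prop
    exact h1
  have h2 := map_mem_closure₂ hc hx hy (u := ((⁅K, K⁆ : Subgroup G) : Set G)) fun a ha b hb =>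
    Subgroup.commutator_mem_commutator (G := G) ha hb
  exact h2

theorem derived_closure {G : Type*} [Group G] [TopologicalSpace G] [IsTopologicalGroup G] (n : ℕ) :
    (derivedSeries (commutator G).topologicalClosure n).map (commutator G).topologicalClosure.subtype ≤
      (derivedSeries G (n + 1)).topologicalClosure := by
  induction n with
  | zero =>
    rw [derivedSeries_zero, ← MonoidHom.range_eq_map, Subgroup.range_subtype, derivedSeries_one]
  | succ n ih =>
    rw [derivedSeries_succ, Subgroup.map_commutator]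
    exact (Subgroup.commutator_mono ih ih).trans (commutator_closure_le _)

theorem solvable_aux (m n : ℕ) : ∀ (G : Type) [Group G] [Countable G] [TopologicalSpace G]
    [IsTopologicalGroup G] [T2Space G] [FrechetUrysohnSpace G],
    ¬ (𝓝 (1 : G)).IsCountablyGenerated → derivedSeries G n = ⊥ → (∀ x : G, x ^ m = 1) →
    ∃ (A : Type) (_ : CommGroup A), Countable A ∧ (∀ x : A, x ^ m = 1) ∧ NMF A := by
  induction n with
  | zero =>
    intro G _ _ _ _ _ _ hG h _
    exfalso
    apply hG
    rw [derivedSeries_zero] at h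
    have h1 : Subsingleton G := Subgroup.subsingleton_iff.1 (subsingleton_of_top_eq_bot h)
    have h2 : DiscreteTopology G := Subsingleton.discreteTopology
    rw [nhds_discrete]
    infer_instance
  | succ n ih =>
    intro G _ _ _ _ _ _ hG h hm
    have hNn : (commutator G).topologicalClosure.Normal := Subgroup.is_normal_topologicalClosure _
    rcases nmf_three hG (commutator G).topologicalClosure (Subgroup.isClosed_topologicalClosure _) with h1 | h1
    · have h2 : FrechetUrysohnSpace (commutator G).topologicalClosure := frechet_subgroup _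
      refine ih (commutator G).topologicalClosure h1 ?_ fun x => Subtype.ext (hm x)
      have h3 := derived_closure (G := G) n
      rw [h] at h3
      have h4 : (⊥ : Subgroup G).topologicalClosure = ⊥ := by
        apply SetLike.coe_injective
        rw [Subgroup.coe_topologicalClosure_bot, closure_singleton]
        rfl
      rw [h4, le_bot_iff, Subgroup.map_eq_bot_iff_of_injective _ (Subgroup.subtype_injective _)] at h3
      exact h3
    · have h2 := (Subgroup.Normal.quotient_commutative_iff_commutator_le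
        (N := (commutator G).topologicalClosure)).2 (Subgroup.le_topologicalClosure _)
      refine ⟨G ⧸ (commutator G).topologicalClosure,
        { (inferInstance : Group (G ⧸ (commutator G).topologicalClosure)) with
          mul_comm := fun a b => h2.1.1 a b }, Quotient.countable, fun x => ?_, h1⟩
      obtain ⟨y, rfl⟩ := QuotientGroup.mk_surjective x
      have h3 : ((y ^ m : G) : G ⧸ (commutator G).topologicalClosure) = 1 := by
        rw [hm y]
        rfl
      exact h3

/-- From a solvable group to a commutative group. -/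
theorem exists_comm {G : Type} [Group G] [Countable G] (hs : Group.IsSolvable G) (hG : NMF G) (m : ℕ)
    (hm : ∀ x : G, x ^ m = 1) :
    ∃ (A : Type) (_ : CommGroup A), Countable A ∧ (∀ x : A, x ^ m = 1) ∧ NMF A := by
  obtain ⟨τ, h1, h2, h3, h4⟩ := hG.exists_top
  obtain ⟨n, hn⟩ := hs.solvable
  exact solvable_aux m n G h4 hn hm

end Pool.Agent.NFU
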