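import Pool.Agent.NMF.Three

/-!
Commutative groups of bounded exponent.
-/

set_option autoImplicit false

namespace Pool.Agent.NFU

open Set Filter Topology Pointwise

theorem equiv_vp {T : Type} [CommGroup T] [Countable T] [Infinite T] {p : ℕ} (hp : p.Prime)
    (h : ∀ x : T, x ^ p = 1) : Nonempty (T ≃* Multiplicative (ℕ →₀ ZMod p)) := by
  have : Fact p.Prime := ⟨hp⟩
  let _ : Module (ZMod p) (Additive T) := AddCommGroup.zmodModule (G := Additive T) (n := p) fun x => h x
  let b := Module.Basis.ofVectorSpace (ZMod p) (Additive T)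
  have h0 : Countable (Additive T) := inferInstanceAs (Countable T)
  have h1 : Countable (Module.Basis.ofVectorSpaceIndex (ZMod p) (Additive T)) :=
    b.injective.countable
  have h2 : Infinite (Module.Basis.ofVectorSpaceIndex (ZMod p) (Additive T)) := by
    rw [← not_finite_iff_infinite]
    intro h3
    have h4 : Finite (Additive T) := Finite.of_equiv _ b.equivFun.symm.toEquiv
    have h5 : Finite T := h4
    exact not_finite T
  obtain ⟨e⟩ := nonempty_equiv_of_countable (α := Module.Basis.ofVectorSpaceIndex (ZMod p) (Additive T)) (β := ℕ)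
  let f : Additive T ≃+ (ℕ →₀ ZMod p) :=
    (b.repr.toAddEquiv).trans (Finsupp.domLCongr (R := ZMod p) e).toAddEquiv
  exact ⟨{ toFun := fun x => Multiplicative.ofAdd (f (Additive.ofMul x))
           invFun := fun y => Additive.toMul (f.symm (Multiplicative.toAdd y))
           left_inv := fun x => by simp
           right_inv := fun y => by simp
           map_mul' := fun x y => by
            rw [ofMul_mul, map_add, ofAdd_add] }⟩

theorem pow_quot {H : Type*} [CommGroup H] {p M : ℕ} (h : ∀ x : H, x ^ (p * M) = 1)
    (x : H ⧸ (powMonoidHom p : H →* H).ker) : x ^ M = 1 := by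
  obtain ⟨y, rfl⟩ := QuotientGroup.mk_surjective x
  rw [← QuotientGroup.mk_pow, QuotientGroup.eq_one_iff]
  show (y ^ M) ^ p = 1
  rw [← pow_mul, mul_comm, h]

theorem infinite_lift {H : Type*} [CommGroup H] (p q : ℕ)
    (h : {x : H ⧸ (powMonoidHom p : H →* H).ker | x ^ q = 1}.Infinite) : {x : H | x ^ q = 1}.Infinite := by
  have h1 := h.image (f := QuotientGroup.kerLift (powMonoidHom p : H →* H))
    (QuotientGroup.kerLift_injective _).injOn
  refine h1.mono ?_
  rintro _ ⟨x, hx, rfl⟩
  show (QuotientGroup.kerLift (powMonoidHom p : H →* H) x) ^ q = 1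
  have hx' : x ^ q = 1 := hx
  rw [← map_pow, hx', map_one]

theorem bounded_aux (N : ℕ) : 0 < N → ∀ (H : Type) [CommGroup H] [Countable H] [TopologicalSpace H]
    [IsTopologicalGroup H] [T2Space H] [FrechetUrysohnSpace H], (∀ x : H, x ^ N = 1) →
    ¬ (𝓝 (1 : H)).IsCountablyGenerated →
    ∃ p : ℕ, p.Prime ∧ {x : H | x ^ p = 1}.Infinite ∧ NMF (Multiplicative (ℕ →₀ ZMod p)) := by
  induction N using Nat.strong_induction_on with
  | _ N ih =>
    intro hN H _ _ _ _ _ _ hx hH
    by_cases hN1 : N = 1
    · exfalso
      apply hH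
      have h1 : Subsingleton H := ⟨fun a b => by
        have ha := hx a
        have hb := hx b
        rw [hN1, pow_one] at ha hb
        rw [ha, hb]⟩
      have h2 : DiscreteTopology H := Subsingleton.discreteTopology
      rw [nhds_discrete]
      infer_instance
    · obtain ⟨p, hp, M, rfl⟩ := Nat.exists_prime_and_dvd hN1
      have hM : 0 < M := Nat.pos_of_mul_pos_left hN
      have hMN : M < p * M := by
        have := hp.two_le
        nlinarith
      have hcl : IsClosed ((powMonoidHom p : H →* H).ker : Set H) := by
        have h1 : Continuous fun x : H => x ^ p := by fun_prop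
        exact isClosed_singleton.preimage h1
      rcases nmf_three hH (powMonoidHom p : H →* H).ker hcl with h1 | h1
      · have h2 : Infinite (powMonoidHom p : H →* H).ker := by
          rw [← not_finite_iff_infinite]
          intro h3
          apply h1
          have h4 : DiscreteTopology (powMonoidHom p : H →* H).ker := inferInstance
          rw [nhds_discrete]
          infer_instance
        have h3 : FrechetUrysohnSpace (powMonoidHom p : H →* H).ker := frechet_subgroup _
        obtain ⟨e⟩ := equiv_vp (T := (powMonoidHom p : H →* H).ker) hp fun x => Subtype.ext x.2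
        exact ⟨p, hp, Set.infinite_coe_iff.1 h2, (nmf_of_not h1).congr e⟩
      · obtain ⟨τ, t1, t2, t3, t4⟩ := h1.exists_top
        have h5 : Countable (H ⧸ (powMonoidHom p : H →* H).ker) := Quotient.countable
        obtain ⟨q, hq, hq1, hq2⟩ := @ih M hMN hM (H ⧸ (powMonoidHom p : H →* H).ker) _ h5 τ t1 t2 t3
          (pow_quot hx) t4
        exact ⟨q, hq, infinite_lift p q hq1, hq2⟩

/-- Commutative groups of bounded exponent. -/
theorem nmf_bounded {H : Type} [CommGroup H] [Countable H] {N : ℕ} (hN : 0 < N) (hx : ∀ x : H, x ^ N = 1)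
    (hH : NMF H) :
    ∃ p : ℕ, p.Prime ∧ {x : H | x ^ p = 1}.Infinite ∧ NMF (Multiplicative (ℕ →₀ ZMod p)) := by
  obtain ⟨τ, t1, t2, t3, t4⟩ := hH.exists_top
  exact bounded_aux N hN H hx t4

theorem exists_prime_infinite (N : ℕ) : 0 < N → ∀ (H : Type) [CommGroup H] [Infinite H], (∀ x : H, x ^ N = 1) →
    ∃ p : ℕ, p.Prime ∧ {x : H | x ^ p = 1}.Infinite := by
  induction N using Nat.strong_induction_on with
  | _ N ih =>
    intro hN H _ _ hx
    by_cases hN1 : N = 1
    · exfalso
      have h1 : Subsingleton H := ⟨fun a b => by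
        have ha := hx a
        have hb := hx b
        rw [hN1, pow_one] at ha hb
        rw [ha, hb]⟩
      exact not_finite H
    · obtain ⟨p, hp, M, rfl⟩ := Nat.exists_prime_and_dvd hN1
      have hM : 0 < M := Nat.pos_of_mul_pos_left hN
      have hMN : M < p * M := by
        have := hp.two_le
        nlinarith
      by_cases h1 : Finite (powMonoidHom p : H →* H).ker
      · have h2 : Infinite (H ⧸ (powMonoidHom p : H →* H).ker) := by
          rw [← not_finite_iff_infinite]
          intro h3
          have h4 : Finite H := Finite.of_equiv _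
            (Subgroup.groupEquivQuotientProdSubgroup (s := (powMonoidHom p : H →* H).ker)).symm
          exact not_finite H
        obtain ⟨q, hq, hq1⟩ := ih M hMN hM (H ⧸ (powMonoidHom p : H →* H).ker) (pow_quot hx)
        exact ⟨q, hq, infinite_lift p q hq1⟩
      · rw [not_finite_iff_infinite] at h1
        exact ⟨p, hp, Set.infinite_coe_iff.1 h1⟩

end Pool.Agent.NFU
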